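import Pool.Agent.W_MP_f5b23d_al.Genus

set_option autoImplicit false

namespace Pool.Agent.W_MP_f5b23d_al

open Subgroup
open scoped commutatorElement

variable {X : Type*} (c : X → FreeGroup X) (z : FreeGroup X)

theorem lift_mem_commutator (hc : ∀ x, c x ∈ commutator (FreeGroup X)) (f : FreeGroup X) :
    FreeGroup.lift c f ∈ commutator (FreeGroup X) := by
  have h : (⊤ : Subgroup (FreeGroup X)) ≤ (commutator (FreeGroup X)).comap (FreeGroup.lift c) := by
    rw [← FreeGroup.closure_range_of, closure_le]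
    rintro _ ⟨y, rfl⟩
    simpa using hc y
  exact h (mem_top f)

theorem sn_mem_lcs (hc : ∀ x, c x ∈ commutator (FreeGroup X)) (n : ℕ) : ∀ f : FreeGroup X,
    sn c n f ∈ (⊤ : Subgroup (FreeGroup X)).lowerCentralSeries n := by
  induction n with
  | zero => intro f; exact mem_top _
  | succ n ih =>
    intro f
    have h1 := lift_mem_commutator c hc f
    have h2 : sn c (n + 1) f ∈ (commutator (FreeGroup X)).map (sn c n) :=
      ⟨_, h1, rfl⟩
    rw [_root_.commutator_def, map_commutator] at h2
    refine commutator_mono ?_ le_top h2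
    rintro _ ⟨g, -, rfl⟩
    exact ih g

theorem sup_lcs (hc : ∀ x, c x ∈ commutator (FreeGroup X)) (n : ℕ) (f : FreeGroup X) :
    ∃ k ∈ normalClosure (rels c z), ∃ m ∈ (⊤ : Subgroup (FreeGroup X)).lowerCentralSeries n,
      f = m * k := by
  refine ⟨(sn c n f)⁻¹ * f, ?_, sn c n f, sn_mem_lcs c hc n f, by group⟩
  have h := inv_mem (sn_cong c z n f)
  simpa using h

variable (M : Subgroup (FreeGroup X)) [M.Normal] (hM : M ≤ normalClosure (rels c z))

/-- The fibre product of `F / M` and `F` over `F / N`, where `N` is the normal closure of the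
relators. -/
def fib : Subgroup ((FreeGroup X ⧸ M) × FreeGroup X) :=
  MonoidHom.eqLocus
    ((QuotientGroup.lift M (QuotientGroup.mk' (normalClosure (rels c z)))
      (by rwa [QuotientGroup.ker_mk'])).comp (MonoidHom.fst _ _))
    ((QuotientGroup.mk' (normalClosure (rels c z))).comp (MonoidHom.snd _ _))

theorem mem_fib (g f : FreeGroup X) :
    (((g : FreeGroup X ⧸ M), f) ∈ fib c z M hM) ↔ g⁻¹ * f ∈ normalClosure (rels c z) := by
  rw [← QuotientGroup.eq]
  rfl

theorem diag_mem_fib (g : FreeGroup X) : ((g : FreeGroup X ⧸ M), g) ∈ fib c z M hM := by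
  rw [mem_fib]; simp

theorem one_mem_fib {f : FreeGroup X} (hf : f ∈ normalClosure (rels c z)) :
    ((1 : FreeGroup X ⧸ M), f) ∈ fib c z M hM := by
  have := mem_fib c z M hM 1 f
  rw [QuotientGroup.mk_one] at this
  rw [this]; simpa using hf

theorem iter_le_fib (n : ℕ) : iter (normalClosure (rels c z)) n ≤
    ((fib c z M hM).lowerCentralSeries n).comap (MonoidHom.inr (FreeGroup X ⧸ M) (FreeGroup X)) := by
  induction n with
  | zero => intro f hf; exact one_mem_fib c z M hM hf
  | succ n ih =>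
    rw [iter, commutator_le]
    intro a ha b _
    rw [mem_comap, map_commutatorElement]
    have h1 : ⁅(MonoidHom.inr (FreeGroup X ⧸ M) (FreeGroup X)) a,
        (MonoidHom.inr (FreeGroup X ⧸ M) (FreeGroup X)) b⁆ =
        ⁅(MonoidHom.inr (FreeGroup X ⧸ M) (FreeGroup X)) a, (((b : FreeGroup X ⧸ M), b))⁆ := by
      simp only [commutatorElement_def, MonoidHom.inr_apply]
      ext <;> simp
    rw [h1]
    exact commutator_mem_commutator (ih ha) (diag_mem_fib c z M hM b)

theorem fib_inf (hc : ∀ x, c x ∈ commutator (FreeGroup X)) (n : ℕ)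
    (x : (FreeGroup X ⧸ M) × FreeGroup X) (hx : x ∈ fib c z M hM)
    (hx' : x ∈ (⊤ : Subgroup ((FreeGroup X ⧸ M) × FreeGroup X)).lowerCentralSeries n) :
    x ∈ (fib c z M hM).lowerCentralSeries n := by
  -- project to the first factor
  have h1 : x.1 ∈ ((fib c z M hM).lowerCentralSeries n).map (MonoidHom.fst _ _) := by
    rw [map_lowerCentralSeries]
    have h2 : (fib c z M hM).map (MonoidHom.fst (FreeGroup X ⧸ M) (FreeGroup X)) = ⊤ := by
      rw [eq_top_iff]
      rintro g -
      obtain ⟨g, rfl⟩ := QuotientGroup.mk_surjective g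
      exact ⟨_, diag_mem_fib c z M hM g, rfl⟩
    rw [h2]
    have h3 := Subgroup.mem_map_of_mem (MonoidHom.fst (FreeGroup X ⧸ M) (FreeGroup X)) hx'
    rw [map_lowerCentralSeries] at h3
    exact lowerCentralSeries_mono n le_top h3
  obtain ⟨y, hy, hxy⟩ := h1
  have hxy' : y.1 = x.1 := hxy
  have hy1 : y ∈ fib c z M hM := lowerCentralSeries_le_self _ n hy
  have hy2 : y.2 ∈ (⊤ : Subgroup (FreeGroup X)).lowerCentralSeries n := by
    have h3 := Subgroup.mem_map_of_mem (MonoidHom.snd (FreeGroup X ⧸ M) (FreeGroup X)) hy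
    rw [map_lowerCentralSeries] at h3
    exact lowerCentralSeries_mono n le_top h3
  have hx2 : x.2 ∈ (⊤ : Subgroup (FreeGroup X)).lowerCentralSeries n := by
    have h3 := Subgroup.mem_map_of_mem (MonoidHom.snd (FreeGroup X ⧸ M) (FreeGroup X)) hx'
    rw [map_lowerCentralSeries] at h3
    exact lowerCentralSeries_mono n le_top h3
  have h4 : y.2⁻¹ * x.2 ∈ normalClosure (rels c z) := by
    have h5 : y⁻¹ * x ∈ fib c z M hM := mul_mem (inv_mem hy1) hx
    have h6 : y⁻¹ * x = (((1 : FreeGroup X) : FreeGroup X ⧸ M), y.2⁻¹ * x.2) := by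
      ext
      · simp [hxy']
      · simp
    rw [h6, mem_fib] at h5
    simpa using h5
  have h5 := inf_lcs_le c z hc n _ h4 (mul_mem (inv_mem hy2) hx2)
  have h6 := iter_le_fib c z M hM n h5
  have h7 := mul_mem hy h6
  have h8 : y * (MonoidHom.inr (FreeGroup X ⧸ M) (FreeGroup X)) (y.2⁻¹ * x.2) = x := by
    ext
    · simp [hxy']
    · simp
  rwa [h8] at h7

/-- The fibre product and the direct product have the same lower central quotients. -/
theorem fib_genus (hc : ∀ x, c x ∈ commutator (FreeGroup X)) (n : ℕ) :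
    Nonempty ((fib c z M hM) ⧸ (⊤ : Subgroup (fib c z M hM)).lowerCentralSeries n ≃*
      ((FreeGroup X ⧸ M) × FreeGroup X) ⧸
        (⊤ : Subgroup ((FreeGroup X ⧸ M) × FreeGroup X)).lowerCentralSeries n) := by
  set D := (FreeGroup X ⧸ M) × FreeGroup X with hD
  set φ : fib c z M hM →* D ⧸ (⊤ : Subgroup D).lowerCentralSeries n :=
    (QuotientGroup.mk' _).comp (fib c z M hM).subtype with hφ
  have hsurj : Function.Surjective φ := by
    intro q
    obtain ⟨⟨g, f⟩, rfl⟩ := QuotientGroup.mk_surjective q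
    obtain ⟨g, rfl⟩ := QuotientGroup.mk_surjective g
    obtain ⟨k, hk, m, hm, hfk⟩ := sup_lcs c z hc n (f * g⁻¹)
    -- `(g, f) = (1, m) * ((1, k) * (g, g))`
    have h1 : ((1 : FreeGroup X ⧸ M), k) * ((g : FreeGroup X ⧸ M), g) ∈ fib c z M hM :=
      mul_mem (one_mem_fib c z M hM hk) (diag_mem_fib c z M hM g)
    refine ⟨⟨_, h1⟩, ?_⟩
    change QuotientGroup.mk' ((⊤ : Subgroup D).lowerCentralSeries n)
        (((1 : FreeGroup X ⧸ M), k) * ((g : FreeGroup X ⧸ M), g)) =
      QuotientGroup.mk' ((⊤ : Subgroup D).lowerCentralSeries n) ((g : FreeGroup X ⧸ M), f)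
    have h2 : ((g : FreeGroup X ⧸ M), f) = ((1 : FreeGroup X ⧸ M), m) *
        (((1 : FreeGroup X ⧸ M), k) * ((g : FreeGroup X ⧸ M), g)) := by
      ext
      · simp
      · simp only [Prod.snd_mul]
        rw [← mul_assoc, ← hfk]; group
    have h3 : QuotientGroup.mk' ((⊤ : Subgroup D).lowerCentralSeries n)
        ((1 : FreeGroup X ⧸ M), m) = 1 := by
      rw [QuotientGroup.mk'_apply, QuotientGroup.eq_one_iff]
      have h4 := Subgroup.mem_map_of_mem (MonoidHom.inr (FreeGroup X ⧸ M) (FreeGroup X)) hm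
      rw [map_lowerCentralSeries] at h4
      exact lowerCentralSeries_mono n le_top h4
    rw [h2, map_mul _ ((1 : FreeGroup X ⧸ M), m), h3, one_mul]
  have hker : φ.ker = (⊤ : Subgroup (fib c z M hM)).lowerCentralSeries n := by
    ext x
    rw [MonoidHom.mem_ker]
    constructor
    · intro hx
      have hx1 : (x : D) ∈ (⊤ : Subgroup D).lowerCentralSeries n :=
        (QuotientGroup.eq_one_iff _).1 hx
      have hx2 := fib_inf c z M hM hc n x x.2 hx1
      rw [← top_subtype_lowerCentralSeries] at hx2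
      obtain ⟨y, hy, hyx⟩ := hx2
      have : y = x := Subtype.ext hyx
      rwa [← this]
    · intro hx
      have hx2 := Subgroup.mem_map_of_mem (fib c z M hM).subtype hx
      rw [top_subtype_lowerCentralSeries] at hx2
      exact (QuotientGroup.eq_one_iff _).2 (lowerCentralSeries_mono n le_top hx2)
  exact ⟨(QuotientGroup.quotientMulEquivOfEq hker.symm).trans
    (QuotientGroup.quotientKerEquivOfSurjective φ hsurj)⟩

/-- The fibre product is finitely generated. -/
theorem fib_fg [Finite X] : Group.FG (fib c z M hM) := by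
  rw [Group.fg_iff_subgroup_fg]
  set S : Set ((FreeGroup X ⧸ M) × FreeGroup X) :=
    (Set.range fun x : X => ((FreeGroup.of x : FreeGroup X ⧸ M), FreeGroup.of x)) ∪
      (MonoidHom.inr (FreeGroup X ⧸ M) (FreeGroup X)) '' (rels c z) with hS
  have hfin : S.Finite := by
    refine (Set.finite_range _).union (Set.Finite.image _ ?_)
    exact (Set.finite_range _).union (Set.finite_range _)
  refine (Subgroup.fg_iff _).2 ⟨S, ?_, hfin⟩
  -- diagonal elements
  have hdiag : ∀ g : FreeGroup X, ((g : FreeGroup X ⧸ M), g) ∈ closure S := by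
    intro g
    have h : (⊤ : Subgroup (FreeGroup X)) ≤ (closure S).comap
        ((QuotientGroup.mk' M).prod (MonoidHom.id _)) := by
      rw [← FreeGroup.closure_range_of, closure_le]
      rintro _ ⟨y, rfl⟩
      exact subset_closure (Or.inl ⟨y, rfl⟩)
    exact h (mem_top g)
  apply le_antisymm
  · rw [closure_le]
    rintro _ (⟨x, rfl⟩ | ⟨r, hr, rfl⟩)
    · exact diag_mem_fib c z M hM _
    · exact one_mem_fib c z M hM (subset_normalClosure hr)
  · rintro ⟨g, f⟩ hgf
    obtain ⟨g, rfl⟩ := QuotientGroup.mk_surjective g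
    rw [mem_fib] at hgf
    -- the set of `n` with `(1, n)` in the closure is a normal subgroup
    have hnorm : ((closure S).comap (MonoidHom.inr (FreeGroup X ⧸ M) (FreeGroup X))).Normal := by
      constructor
      intro n hn g
      rw [mem_comap] at hn ⊢
      have h1 := mul_mem (mul_mem (hdiag g) hn) (inv_mem (hdiag g))
      have h2 : ((g : FreeGroup X ⧸ M), g) * (MonoidHom.inr (FreeGroup X ⧸ M) (FreeGroup X)) n *
          ((g : FreeGroup X ⧸ M), g)⁻¹ =
          (MonoidHom.inr (FreeGroup X ⧸ M) (FreeGroup X)) (g * n * g⁻¹) := by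
        ext <;> simp
      rwa [h2] at h1
    have hle : normalClosure (rels c z) ≤
        (closure S).comap (MonoidHom.inr (FreeGroup X ⧸ M) (FreeGroup X)) := by
      apply normalClosure_le_normal
      intro r hr
      exact subset_closure (Or.inr ⟨r, hr, rfl⟩)
    have h1 := mul_mem (hdiag g) (hle hgf)
    have h2 : ((g : FreeGroup X ⧸ M), g) *
        (MonoidHom.inr (FreeGroup X ⧸ M) (FreeGroup X)) (g⁻¹ * f) = ((g : FreeGroup X ⧸ M), f) := by
      ext <;> simp
    rwa [h2] at h1

end Pool.Agent.W_MP_f5b23d_al
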