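import Mathlib

set_option autoImplicit false

namespace Pool.Agent.W_MP_f5b23d_al

open Subgroup
open scoped commutatorElement

theorem coatom_of_prime_index {G : Type*} [Group G] (H : Subgroup G) {p : ℕ} (hp : p.Prime)
    (h : H.index = p) : IsCoatom H := by
  refine ⟨?_, ?_⟩
  · rintro rfl
    rw [index_top] at h
    exact hp.one_lt.ne h
  · intro K hK
    have h1 := relIndex_mul_index hK.le
    rw [h] at h1
    have h2 : K.index ∣ p := Dvd.intro_left _ h1
    rcases (Nat.dvd_prime hp).1 h2 with h3 | h3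
    · exact index_eq_one.1 h3
    · exfalso
      rw [h3] at h1
      have h4 : H.relIndex K = 1 := by
        have := hp.pos
        exact Nat.eq_of_mul_eq_mul_right this (by rw [h1, one_mul])
      exact not_le_of_gt hK (relIndex_eq_one.1 h4)

variable {X : Type*}

theorem exists_perm (p : ℕ) (K : ℕ → X × Bool)
    (hK : ∀ i, (K i).1 = (K (i + 1)).1 → (K i).2 = (K (i + 1)).2) (x : X) :
    ∃ σ : Equiv.Perm (Fin p), ∀ (i : ℕ) (hi : i + 1 < p),
      (K i = (x, true) → σ ⟨i + 1, hi⟩ = ⟨i, by omega⟩) ∧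
      (K i = (x, false) → σ ⟨i, by omega⟩ = ⟨i + 1, hi⟩) := by
  classical
  set f : Fin p → Fin p := fun u =>
    if h : 1 ≤ u.1 ∧ K (u.1 - 1) = (x, true) then ⟨u.1 - 1, by omega⟩ else
      if h : u.1 + 1 < p then ⟨u.1 + 1, h⟩ else u with hf
  set s : Set (Fin p) := {u | (1 ≤ u.1 ∧ K (u.1 - 1) = (x, true)) ∨
    (u.1 + 1 < p ∧ K u.1 = (x, false))} with hs
  -- no conflicts
  have hconf : ∀ i : ℕ, ¬ (K i = (x, false) ∧ K (i + 1) = (x, true)) := by
    rintro i ⟨h1, h2⟩
    have h3 := hK i (by rw [h1, h2])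
    rw [h1, h2] at h3
    exact absurd h3 (by simp)
  have hconf' : ∀ i : ℕ, ¬ (K i = (x, true) ∧ K (i + 1) = (x, false)) := by
    rintro i ⟨h1, h2⟩
    have h3 := hK i (by rw [h1, h2])
    rw [h1, h2] at h3
    exact absurd h3 (by simp)
  have f1 : ∀ u : Fin p, (h : 1 ≤ u.1 ∧ K (u.1 - 1) = (x, true)) → (f u).1 = u.1 - 1 := by
    intro u h
    simp only [hf, dif_pos h]
  have f2 : ∀ u : Fin p, (h : u.1 + 1 < p ∧ K u.1 = (x, false)) → (f u).1 = u.1 + 1 := by
    intro u h
    have h1 : ¬ (1 ≤ u.1 ∧ K (u.1 - 1) = (x, true)) := by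
      rintro ⟨h2, h3⟩
      apply hconf' (u.1 - 1)
      refine ⟨h3, ?_⟩
      have : u.1 - 1 + 1 = u.1 := by omega
      rw [this]; exact h.2
    simp only [hf, dif_neg h1, dif_pos h.1]
  have hinj : Set.InjOn f s := by
    intro u hu v hv huv
    have huv' : (f u).1 = (f v).1 := by rw [huv]
    rcases hu with hu | hu <;> rcases hv with hv | hv
    · rw [f1 u hu, f1 v hv] at huv'
      ext; omega
    · rw [f1 u hu, f2 v hv] at huv'
      exfalso
      apply hconf v.1
      rw [← huv']
      exact ⟨hv.2, hu.2⟩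
    · rw [f2 u hu, f1 v hv] at huv'
      exfalso
      apply hconf u.1
      rw [huv']
      exact ⟨hu.2, hv.2⟩
    · rw [f2 u hu, f2 v hv] at huv'
      ext; omega
  have hcard : Fintype.card (Fin p) = (Finset.univ : Finset (Fin p)).card := by simp
  obtain ⟨g, hg⟩ := Set.MapsTo.exists_equiv_extend_of_card_eq hcard
    (s := s) (f := f) (by intro u _; simp) hinj
  refine ⟨g.trans (Equiv.subtypeUnivEquiv (by simp)), ?_⟩
  intro i hi
  constructor
  · intro h
    have h1 : 1 ≤ (⟨i + 1, hi⟩ : Fin p).1 ∧ K ((⟨i + 1, hi⟩ : Fin p).1 - 1) = (x, true) := by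
      refine ⟨by simp, by simpa using h⟩
    have h2 := hg ⟨i + 1, hi⟩ (Or.inl h1)
    have h3 := f1 _ h1
    ext
    simp only [Equiv.trans_apply, Equiv.subtypeUnivEquiv_apply]
    rw [h2, h3]
    simp
  · intro h
    have h1 : (⟨i, by omega⟩ : Fin p).1 + 1 < p ∧ K (⟨i, by omega⟩ : Fin p).1 = (x, false) :=
      ⟨hi, h⟩
    have h2 := hg ⟨i, by omega⟩ (Or.inr h1)
    have h3 := f2 _ h1
    ext
    simp only [Equiv.trans_apply, Equiv.subtypeUnivEquiv_apply]
    rw [h2, h3]

/-- The Frattini subgroup of a free group is trivial. -/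
theorem free_frattini (X : Type*) : frattini (FreeGroup X) = ⊥ := by
  classical
  rw [eq_bot_iff]
  intro w hw
  rw [mem_bot]
  by_contra hw1
  set L := w.toWord with hL
  have hred : FreeGroup.IsReduced L := FreeGroup.isReduced_toWord
  have hLne : L ≠ [] := by
    intro h
    exact hw1 (FreeGroup.toWord_eq_nil_iff.1 h)
  have hlen : 0 < L.length := List.length_pos_iff.2 hLne
  -- the infinite reduced word
  set K : ℕ → X × Bool := fun i => L.getD i (L.getLast hLne) with hKdef
  have hK1 : ∀ i (hi : i < L.length), K i = L[i] := by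
    intro i hi
    simp only [hKdef, List.getD_eq_getElem _ _ hi]
  have hK2 : ∀ i, L.length ≤ i + 1 → K i = L.getLast hLne := by
    intro i hi
    by_cases h : i < L.length
    · have : i = L.length - 1 := by omega
      rw [hK1 i h, List.getLast_eq_getElem]
      congr 1
    · simp only [hKdef]
      rw [List.getD_eq_default _ _ (by omega)]
  have hK : ∀ i, (K i).1 = (K (i + 1)).1 → (K i).2 = (K (i + 1)).2 := by
    intro i h
    by_cases hi : i + 1 < L.length
    · rw [hK1 i (by omega), hK1 (i + 1) hi] at h ⊢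
      have h1 := hred
      unfold FreeGroup.IsReduced at h1
      rw [List.isChain_iff_getElem] at h1
      exact h1 i hi h
    · rw [hK2 i (by omega), hK2 (i + 1) (by omega)]
  obtain ⟨p, hpL, hp⟩ := Nat.exists_infinite_primes (L.length + 1)
  choose σ hσ using exists_perm p K hK
  set ρ : FreeGroup X →* Equiv.Perm (Fin p) := FreeGroup.lift σ with hρ
  -- single letters
  have hletter : ∀ (i : ℕ) (hi : i + 1 < p),
      ρ (FreeGroup.mk [K i]) ⟨i + 1, hi⟩ = ⟨i, by omega⟩ := by
    intro i hi
    rcases hKi : K i with ⟨x, b⟩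
    cases b
    · have h1 := (hσ x i hi).2 hKi
      have h2 : ρ (FreeGroup.mk [(x, false)]) = (σ x)⁻¹ := by
        simp [hρ]
      rw [h2, Equiv.Perm.inv_eq_iff_eq, h1]
    · have h1 := (hσ x i hi).1 hKi
      have h2 : ρ (FreeGroup.mk [(x, true)]) = σ x := by
        simp [hρ]
      rw [h2, h1]
  -- words
  have hword : ∀ (L' : List (X × Bool)) (n : ℕ) (hn : n + L'.length < p),
      (∀ i (hi : i < L'.length), K (n + i) = L'[i]) →
      ρ (FreeGroup.mk L') ⟨n + L'.length, hn⟩ = ⟨n, by omega⟩ := by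
    intro L'
    induction L' with
    | nil =>
      intro n hn _
      have : FreeGroup.mk ([] : List (X × Bool)) = 1 := rfl
      rw [this, map_one]
      simp
    | cons a L' ih =>
      intro n hn h
      have h1 : FreeGroup.mk (a :: L') = FreeGroup.mk [a] * FreeGroup.mk L' := by
        rw [FreeGroup.mul_mk]; rfl
      have h2 := ih (n + 1) (by simp only [List.length_cons] at hn; omega) (by
        intro i hi
        have := h (i + 1) (by simp only [List.length_cons]; omega)
        simp only [List.getElem_cons_succ] at this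
        rw [← this]
        congr 1
        omega)
      have h3 : (⟨n + (a :: L').length, hn⟩ : Fin p) =
          ⟨n + 1 + L'.length, by simp only [List.length_cons] at hn; omega⟩ := by
        ext
        simp only [List.length_cons]
        omega
      rw [h1, map_mul, Equiv.Perm.mul_apply, h3, h2]
      have h4 := h 0 (by simp)
      simp only [Nat.add_zero, List.getElem_cons_zero] at h4
      rw [← h4]
      exact hletter n _
  -- the action
  let _ : MulAction (FreeGroup X) (Fin p) := MulAction.compHom (Fin p) ρ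
  have hsmul : ∀ (g : FreeGroup X) (u : Fin p), g • u = ρ g u := fun g u => rfl
  have h0p : 0 < p := hp.pos
  have htrans0 : ∀ (n : ℕ) (hn : n < p), ∃ g : FreeGroup X,
      g • (⟨n, hn⟩ : Fin p) = ⟨0, h0p⟩ := by
    intro n
    induction n with
    | zero => intro hn; exact ⟨1, one_smul _ _⟩
    | succ n ih =>
      intro hn
      obtain ⟨g, hg⟩ := ih (by omega)
      refine ⟨g * FreeGroup.mk [K n], ?_⟩
      rw [mul_smul, hsmul (FreeGroup.mk [K n]), hletter n hn, hg]
  have htrans : MulAction.IsPretransitive (FreeGroup X) (Fin p) := by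
    constructor
    intro u v
    obtain ⟨g, hg⟩ := htrans0 u.1 u.2
    obtain ⟨h, hh⟩ := htrans0 v.1 v.2
    refine ⟨h⁻¹ * g, ?_⟩
    rw [mul_smul, hg, inv_smul_eq_iff, hh]
  have hlt : L.length < p := by omega
  have hidx : (MulAction.stabilizer (FreeGroup X) (⟨L.length, hlt⟩ : Fin p)).index = p := by
    rw [MulAction.index_stabilizer_of_transitive]
    simp
  have hmax := coatom_of_prime_index _ hp hidx
  have hmem := frattini_le_coatom hmax hw
  rw [MulAction.mem_stabilizer_iff, hsmul] at hmem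
  have h5 := hword L 0 (by omega) (by
    intro i hi
    rw [Nat.zero_add, hK1 i hi])
  have h6 : FreeGroup.mk L = w := FreeGroup.mk_toWord
  rw [h6] at h5
  have h7 : (⟨0 + L.length, by omega⟩ : Fin p) = ⟨L.length, hlt⟩ := by
    ext; simp
  rw [h7, hmem] at h5
  have h8 := congrArg Fin.val h5
  simp only at h8
  omega

/-- Central elements in the derived subgroup lie in the Frattini subgroup. -/
theorem center_inf_commutator_le_frattini {G : Type*} [Group G] (z : G) (hz : z ∈ center G)
    (hz' : z ∈ commutator G) : z ∈ frattini G := by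
  unfold frattini Order.radical
  simp only [mem_iInf]
  intro M hM
  by_contra hzM
  -- `M` is maximal, not containing `z`
  have hle : M ⊔ zpowers z = ⊤ := by
    apply hM.2
    rw [left_lt_sup]
    intro h
    exact hzM (h (mem_zpowers z))
  have hdecomp : ∀ g : G, ∃ m ∈ M, ∃ k : ℤ, g = m * z ^ k := by
    have hzc : ∀ (k : ℤ) (h : G), z ^ k * h = h * z ^ k := by
      intro k h
      have := zpow_mem hz k
      rw [mem_center_iff] at this
      exact (this h).symm
    let T : Subgroup G :=
      { carrier := {g | ∃ m ∈ M, ∃ k : ℤ, g = m * z ^ k}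
        one_mem' := ⟨1, one_mem _, 0, by simp⟩
        mul_mem' := by
          rintro _ _ ⟨m, hm, k, rfl⟩ ⟨m', hm', k', rfl⟩
          refine ⟨m * m', mul_mem hm hm', k + k', ?_⟩
          rw [zpow_add, mul_assoc, ← mul_assoc (z ^ k), hzc k m']
          simp only [mul_assoc]
        inv_mem' := by
          rintro _ ⟨m, hm, k, rfl⟩
          refine ⟨m⁻¹, inv_mem hm, -k, ?_⟩
          rw [mul_inv_rev, ← zpow_neg, hzc] }
    have hT : (⊤ : Subgroup G) ≤ T := by
      rw [← hle, sup_le_iff]
      refine ⟨fun m hm => ⟨m, hm, 0, by simp⟩, ?_⟩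
      rw [zpowers_le]
      exact ⟨1, one_mem _, 1, by simp⟩
    intro g
    exact hT (mem_top g)
  have hcom : commutator G ≤ M := by
    rw [_root_.commutator_def, commutator_le]
    intro a _ b _
    obtain ⟨m, hm, k, rfl⟩ := hdecomp a
    obtain ⟨m', hm', k', rfl⟩ := hdecomp b
    have hc : ∀ (k : ℤ) (h : G), Commute (z ^ k) h := by
      intro k h
      have := zpow_mem hz k
      rw [mem_center_iff] at this
      exact (this h).symm
    have : ⁅m * z ^ k, m' * z ^ k'⁆ = ⁅m, m'⁆ := by
      simp only [commutatorElement_def, mul_inv_rev]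
      have e1 := (hc k m').eq
      calc m * z ^ k * (m' * z ^ k') * ((z ^ k)⁻¹ * m⁻¹) * ((z ^ k')⁻¹ * m'⁻¹)
          = m * (z ^ k * (m' * z ^ k')) * (z ^ k)⁻¹ * m⁻¹ * (z ^ k')⁻¹ * m'⁻¹ := by group
        _ = m * ((m' * z ^ k') * z ^ k) * (z ^ k)⁻¹ * m⁻¹ * (z ^ k')⁻¹ * m'⁻¹ := by
            rw [(hc k (m' * z ^ k')).eq]
        _ = m * m' * (z ^ k' * m⁻¹) * (z ^ k')⁻¹ * m'⁻¹ := by group
        _ = m * m' * (m⁻¹ * z ^ k') * (z ^ k')⁻¹ * m'⁻¹ := by rw [(hc k' m⁻¹).eq]
        _ = m * m' * m⁻¹ * m'⁻¹ := by group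
    rw [this, commutatorElement_def]
    exact mul_mem (mul_mem (mul_mem hm hm') (inv_mem hm)) (inv_mem hm')
  exact hzM (hcom hz')

end Pool.Agent.W_MP_f5b23d_al
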