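import Pool.Agent.W_MP_f5b23d_al.Unitri

set_option autoImplicit false

namespace Pool.Agent.W_MP_f5b23d_al

open Subgroup Monoid
open scoped commutatorElement

variable {ι : Type*}

section Step

variable [DecidableEq ι] (L : List (Σ _ : ι, Multiplicative ℤ))

/-- The step matrices attached to a word. -/
def stepMat (i : ι) : Matrix (Fin (L.length + 1)) (Fin (L.length + 1)) ℤ :=
  fun r s => if (s : ℕ) = r + 1 ∧ (L[(r : ℕ)]?).map Sigma.fst = some i then 1 else 0

theorem stepMat_mem (i : ι) : stepMat L i ∈ JJ (L.length + 1) 1 := by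
  intro r s h
  unfold stepMat
  rw [if_neg]
  rintro ⟨h1, -⟩
  omega

theorem stepMat_sq (hL : L.IsChain fun l l' => l.1 ≠ l'.1) (i : ι) :
    stepMat L i * stepMat L i = 0 := by
  ext r t
  rw [Matrix.mul_apply, Matrix.zero_apply]
  apply Finset.sum_eq_zero
  intro s _
  unfold stepMat
  by_cases h1 : (s : ℕ) = r + 1 ∧ (L[(r : ℕ)]?).map Sigma.fst = some i
  · by_cases h2 : (t : ℕ) = s + 1 ∧ (L[(s : ℕ)]?).map Sigma.fst = some i
    · exfalso
      obtain ⟨h3, h4⟩ := h1
      obtain ⟨h5, h6⟩ := h2
      have ht := t.2
      have hs : (r : ℕ) + 1 < L.length := by omega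
      rw [List.isChain_iff_getElem] at hL
      have h7 := hL r hs
      rw [h3] at h6
      rw [List.getElem?_eq_getElem (by omega)] at h4 h6
      simp only [Option.map_some, Option.some.injEq] at h4 h6
      exact h7 (h4.trans h6.symm)
    · rw [if_neg h2, mul_zero]
  · rw [if_neg h1, zero_mul]

/-- The factor attached to a syllable. -/
def fac (l : Σ _ : ι, Multiplicative ℤ) : Matrix (Fin (L.length + 1)) (Fin (L.length + 1)) ℤ :=
  1 + l.2.toAdd • stepMat L l.1

theorem prod_take (hne : ∀ l ∈ L, l.2 ≠ 1) (t : ℕ) (ht : t ≤ L.length) :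
    (∀ s : Fin (L.length + 1), t < (s : ℕ) → ((L.take t).map (fac L)).prod 0 s = 0) ∧
      ((L.take t).map (fac L)).prod 0 ⟨t, by omega⟩ ≠ 0 := by
  induction t with
  | zero =>
    simp only [List.take_zero, List.map_nil, List.prod_nil]
    refine ⟨?_, ?_⟩
    · intro s hs
      apply Matrix.one_apply_ne
      intro h
      rw [← h] at hs
      simp at hs
    · have : (⟨0, by omega⟩ : Fin (L.length + 1)) = 0 := rfl
      rw [this, Matrix.one_apply_eq]
      exact one_ne_zero
  | succ t ih =>
    obtain ⟨ih1, ih2⟩ := ih (by omega)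
    rw [List.take_succ_eq_append_getElem (by omega), List.map_append, List.prod_append]
    simp only [List.map_cons, List.map_nil, List.prod_cons, List.prod_nil, mul_one]
    set P := ((L.take t).map (fac L)).prod with hP
    have hmul : ∀ s' : ℕ, ∀ hs' : s' + 1 < L.length + 1,
        (P * fac L L[t]) 0 ⟨s' + 1, hs'⟩ = P 0 ⟨s' + 1, hs'⟩ + (L[t]).2.toAdd *
          (P 0 ⟨s', by omega⟩ * (if (L[s']?).map Sigma.fst = some (L[t]).1 then 1 else 0)) := by
      intro s' hs'
      unfold fac
      rw [mul_add, mul_one, Matrix.add_apply, mul_smul_comm, Matrix.smul_apply, smul_eq_mul]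
      congr 2
      rw [Matrix.mul_apply, Finset.sum_eq_single ⟨s', by omega⟩]
      · unfold stepMat
        by_cases hq : (L[s']?).map Sigma.fst = some (L[t]).1
        · rw [if_pos hq, if_pos ⟨rfl, hq⟩]
        · rw [if_neg hq, if_neg (fun h => hq h.2)]
      · intro r _ hr
        unfold stepMat
        rw [if_neg, mul_zero]
        rintro ⟨h1, -⟩
        apply hr
        ext
        simp only at h1 ⊢
        omega
      · intro h; exact absurd (Finset.mem_univ _) h
    refine ⟨?_, ?_⟩
    · rintro ⟨s, hs⟩ hts
      simp only at hts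
      obtain ⟨s', rfl⟩ : ∃ s', s = s' + 1 := ⟨s - 1, by omega⟩
      rw [hmul s' hs, ih1 _ (by simp only; omega), ih1 _ (by simp only; omega)]
      simp
    · rw [hmul t (by omega), ih1 _ (by simp)]
      rw [List.getElem?_eq_getElem (by omega)]
      simp only [Option.map_some, if_true, mul_one, zero_add]
      apply mul_ne_zero _ ih2
      intro h
      exact hne L[t] (List.getElem_mem _) (toAdd_eq_zero.1 h)

end Step

/-- Free products of infinite cyclic groups are detected by unitriangular groups. -/
theorem coprod_det : DetUT (CoprodI fun _ : ι => Multiplicative ℤ) := by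
  classical
  intro g hg
  set w := CoprodI.Word.equiv g with hw
  have hgw : w.prod = g := CoprodI.Word.equiv.symm_apply_apply g
  set L : List (Σ _ : ι, Multiplicative ℤ) := w.toList with hL
  have hchain : L.IsChain fun l l' => l.1 ≠ l'.1 := w.chain_ne
  have hne : ∀ l ∈ L, l.2 ≠ 1 := fun l hl => w.ne_one l hl
  have hpos : 0 < L.length := by
    rw [List.length_pos_iff]
    intro h
    apply hg
    rw [← hgw, CoprodI.Word.prod, ← hL, h]
    simp
  refine ⟨L.length + 1, CoprodI.lift (fun i => elemUnit (stepMat L i) (stepMat_mem L i)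
    (stepMat_sq L hchain i)), ?_⟩
  intro h
  have h1 : ((CoprodI.lift (fun i => elemUnit (stepMat L i) (stepMat_mem L i)
    (stepMat_sq L hchain i)) g : (Matrix (Fin (L.length + 1)) (Fin (L.length + 1)) ℤ)ˣ) :
      Matrix (Fin (L.length + 1)) (Fin (L.length + 1)) ℤ) = (L.map (fac L)).prod := by
    rw [← hgw, CoprodI.Word.prod, ← hL, map_list_prod, List.map_map]
    have h2 : ∀ K : List (Σ _ : ι, Multiplicative ℤ),
        (((List.map ((CoprodI.lift (fun i => elemUnit (stepMat L i) (stepMat_mem L i)
          (stepMat_sq L hchain i))) ∘ fun l : (Σ _ : ι, Multiplicative ℤ) =>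
            CoprodI.of (M := fun _ : ι => Multiplicative ℤ) (i := l.fst) l.snd)
          K).prod : (Matrix (Fin (L.length + 1)) (Fin (L.length + 1)) ℤ)ˣ) :
          Matrix (Fin (L.length + 1)) (Fin (L.length + 1)) ℤ) = (K.map (fac L)).prod := by
      intro K
      induction K with
      | nil => simp
      | cons l K ih =>
        rw [List.map_cons, List.prod_cons, List.map_cons, List.prod_cons, ← ih]
        simp only [Function.comp_apply, CoprodI.lift_of, Subgroup.coe_mul, Units.val_mul,
          elemUnit_val]
        rfl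
    exact h2 L
  rw [h] at h1
  have h3 := (prod_take L hne L.length le_rfl).2
  rw [List.take_length, ← h1] at h3
  apply h3
  rw [Subgroup.coe_one, Units.val_one]
  apply Matrix.one_apply_ne
  intro h4
  have := congrArg Fin.val h4
  simp at this
  omega

/-- The natural map from the free group. -/
def toCop (X : Type*) : FreeGroup X →* CoprodI fun _ : X => Multiplicative ℤ :=
  FreeGroup.lift fun x => CoprodI.of (M := fun _ : X => Multiplicative ℤ) (i := x)
    (Multiplicative.ofAdd (1 : ℤ))

theorem toCop_injective (X : Type*) : Function.Injective (toCop X) := by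
  have h : (CoprodI.lift (fun x : X => zpowersHom (FreeGroup X) (FreeGroup.of x))).comp (toCop X)
      = MonoidHom.id _ := by
    ext x
    simp [toCop]
  exact Function.HasLeftInverse.injective ⟨_, fun g => DFunLike.congr_fun h g⟩

/-- Free groups are detected by unitriangular groups. -/
theorem free_det (X : Type*) : DetUT (FreeGroup X) := by
  intro g hg
  apply coprod_det.of_hom g (toCop X)
  intro h
  exact hg (toCop_injective X (h.trans (map_one _).symm))

end Pool.Agent.W_MP_f5b23d_al
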