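import Pool.Agent.W_MP_f5b23d_al.FreeRes
import Pool.Agent.W_MP_f5b23d_al.FreeFrattini

set_option autoImplicit false
set_option linter.unusedSectionVars false

namespace Pool.Agent.W_MP_f5b23d_al

open Subgroup Monoid
open scoped commutatorElement

abbrev ZZ := Multiplicative ℤ

/-- `(u, v) ↦ u * v ^ m`. -/
def hm (m : ℕ) : ZZ × ZZ →* ZZ :=
  MonoidHom.coprod (MonoidHom.id ZZ) (powMonoidHom m)

theorem hm_apply (m : ℕ) (a : ZZ × ZZ) : hm m a = a.1 * a.2 ^ m := rfl

theorem hm_ne_one (a : ZZ × ZZ) (ha : a ≠ 1) : ∃ M : ℕ, ∀ m : ℕ, M ≤ m → hm m a ≠ 1 := by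
  refine ⟨(a.1.toAdd).natAbs + 1, ?_⟩
  intro m hm0 h
  rw [hm_apply] at h
  have h1 : a.1.toAdd + m * a.2.toAdd = 0 := by
    have := congrArg Multiplicative.toAdd h
    simpa using this
  apply ha
  by_cases h2 : a.2.toAdd = 0
  · rw [h2, mul_zero, add_zero] at h1
    exact Prod.ext (toAdd_eq_zero.1 h1) (toAdd_eq_zero.1 h2)
  · exfalso
    have h3 : a.1.toAdd = -(m * a.2.toAdd) := by linarith
    have h4 : (a.1.toAdd).natAbs = m * (a.2.toAdd).natAbs := by
      rw [h3, Int.natAbs_neg, Int.natAbs_mul, Int.natAbs_natCast]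
    have h5 : 1 ≤ (a.2.toAdd).natAbs := Int.natAbs_pos.2 h2
    nlinarith

section Res

variable {Y : Type*}

/-- The map on free products. -/
def Phi (Y : Type*) (m : ℕ) : (CoprodI fun _ : Y => ZZ × ZZ) →* CoprodI fun _ : Y => ZZ :=
  CoprodI.lift fun y => (CoprodI.of (M := fun _ : Y => ZZ) (i := y)).comp (hm m)

theorem neword_map {i j : Y} (w : CoprodI.NeWord (fun _ : Y => ZZ × ZZ) i j) :
    ∃ M : ℕ, ∀ m : ℕ, M ≤ m →
      ∃ w' : CoprodI.NeWord (fun _ : Y => ZZ) i j, w'.prod = Phi Y m w.prod := by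
  induction w with
  | singleton x hx =>
    obtain ⟨M, hM⟩ := hm_ne_one x hx
    refine ⟨M, fun m hm' => ⟨CoprodI.NeWord.singleton (hm m x) (hM m hm'), ?_⟩⟩
    rw [CoprodI.NeWord.prod_singleton, CoprodI.NeWord.prod_singleton]
    simp [Phi]
  | append w₁ hne w₂ ih₁ ih₂ =>
    obtain ⟨M₁, h₁⟩ := ih₁
    obtain ⟨M₂, h₂⟩ := ih₂
    refine ⟨max M₁ M₂, fun m hm' => ?_⟩
    obtain ⟨w₁', e₁⟩ := h₁ m (le_trans (le_max_left _ _) hm')
    obtain ⟨w₂', e₂⟩ := h₂ m (le_trans (le_max_right _ _) hm')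
    refine ⟨CoprodI.NeWord.append w₁' hne w₂', ?_⟩
    rw [CoprodI.NeWord.append_prod, CoprodI.NeWord.append_prod, map_mul, e₁, e₂]

theorem neword_ne_one {i j : Y} (w : CoprodI.NeWord (fun _ : Y => ZZ) i j) : w.prod ≠ 1 := by
  classical
  intro h
  have h1 : (CoprodI.Word.equiv (M := fun _ : Y => ZZ)).symm w.toWord =
      (CoprodI.Word.equiv (M := fun _ : Y => ZZ)).symm CoprodI.Word.empty := by
    change w.toWord.prod = CoprodI.Word.empty.prod
    rw [CoprodI.Word.prod_empty]
    exact h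
  have h2 := (CoprodI.Word.equiv (M := fun _ : Y => ZZ)).symm.injective h1
  have h3 : w.toList = [] := congrArg CoprodI.Word.toList h2
  exact w.toList_ne_nil h3

theorem exists_Phi_ne_one (c : CoprodI fun _ : Y => ZZ × ZZ) (hc : c ≠ 1) :
    ∃ m : ℕ, Phi Y m c ≠ 1 := by
  classical
  set w := CoprodI.Word.equiv c with hw
  have hcw : w.prod = c := CoprodI.Word.equiv.symm_apply_apply c
  have hne : w ≠ CoprodI.Word.empty := by
    intro h
    apply hc
    rw [← hcw, h, CoprodI.Word.prod_empty]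
  obtain ⟨i, j, w', hw'⟩ := CoprodI.NeWord.of_word w hne
  obtain ⟨M, hM⟩ := neword_map w'
  obtain ⟨w'', h''⟩ := hM M le_rfl
  refine ⟨M, ?_⟩
  have : w'.prod = c := by
    rw [← hcw, ← hw']; rfl
  rw [← this, ← h'']
  exact neword_ne_one w''

variable [DecidableEq Y] (a₀ : Y)

/-- The substitution `b ↦ a ^ m`. -/
def phi (m : ℕ) : FreeGroup (Option Y) →* FreeGroup Y :=
  FreeGroup.lift fun o => o.elim (FreeGroup.of a₀ ^ m) FreeGroup.of

theorem phi_surjective (m : ℕ) : Function.Surjective (phi a₀ m) := by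
  intro g
  refine ⟨FreeGroup.map some g, ?_⟩
  have h : (phi a₀ m).comp (FreeGroup.map some) = MonoidHom.id _ := by
    ext x
    simp [phi]
  exact DFunLike.congr_fun h g

/-- The central commutator. -/
def zz : FreeGroup (Option Y) := ⁅FreeGroup.of (some a₀), FreeGroup.of none⁆

theorem phi_zz (m : ℕ) : phi a₀ m (zz a₀) = 1 := by
  unfold zz phi
  rw [map_commutatorElement, commutatorElement_eq_one_iff_mul_comm]
  simp only [FreeGroup.lift_apply_of, Option.elim_some, Option.elim_none]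
  exact (Commute.self_pow _ _).eq

/-- The map to the free product of copies of `ℤ²`. -/
def psi : FreeGroup (Option Y) →* CoprodI fun _ : Y => ZZ × ZZ :=
  FreeGroup.lift fun o => o.elim
    (CoprodI.of (M := fun _ : Y => ZZ × ZZ) (i := a₀) (1, Multiplicative.ofAdd (1 : ℤ)))
    (fun y => CoprodI.of (M := fun _ : Y => ZZ × ZZ) (i := y) (Multiplicative.ofAdd (1 : ℤ), 1))

theorem Phi_psi (m : ℕ) : (Phi Y m).comp (psi a₀) = (toCop Y).comp (phi a₀ m) := by
  ext o
  cases o with
  | none =>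
    simp only [MonoidHom.comp_apply, psi, phi, FreeGroup.lift_apply_of, Option.elim_none, map_pow]
    simp [Phi, toCop, hm_apply]
  | some y => simp [Phi, psi, toCop, phi, hm_apply]

theorem commute_bar (y : Y) :
    Commute ((FreeGroup.of (some y) : FreeGroup (Option Y)) : FreeGroup (Option Y) ⧸
      normalClosure {zz a₀})
      (if y = a₀ then ((FreeGroup.of none : FreeGroup (Option Y)) : FreeGroup (Option Y) ⧸
        normalClosure {zz a₀}) else 1) := by
  split_ifs with h
  · subst h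
    have h1 : ((zz y : FreeGroup (Option Y)) : FreeGroup (Option Y) ⧸ normalClosure {zz y}) = 1 :=
      (QuotientGroup.eq_one_iff _).2 (subset_normalClosure rfl)
    have h2 : QuotientGroup.mk' (normalClosure {zz y}) (zz y) = 1 := h1
    unfold zz at h2
    rw [map_commutatorElement, commutatorElement_eq_one_iff_mul_comm] at h2
    exact h2
  · exact Commute.one_right _

/-- The inverse map. -/
def theta : (CoprodI fun _ : Y => ZZ × ZZ) →* FreeGroup (Option Y) ⧸ normalClosure {zz a₀} :=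
  CoprodI.lift fun y => MonoidHom.noncommCoprod
    (zpowersHom (FreeGroup (Option Y) ⧸ normalClosure {zz a₀})
      ((FreeGroup.of (some y) : FreeGroup (Option Y)) : FreeGroup (Option Y) ⧸
        normalClosure {zz a₀}))
    (zpowersHom (FreeGroup (Option Y) ⧸ normalClosure {zz a₀})
      (if y = a₀ then ((FreeGroup.of none : FreeGroup (Option Y)) : FreeGroup (Option Y) ⧸
        normalClosure {zz a₀}) else 1))
    (by
      intro m n
      simp only [zpowersHom_apply]
      exact (commute_bar a₀ y).zpow_zpow _ _)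

theorem theta_psi : (theta a₀).comp (psi a₀) = QuotientGroup.mk' (normalClosure {zz a₀}) := by
  ext o
  cases o with
  | none => simp [theta, psi]
  | some y => simp [theta, psi]

theorem mem_R_of_phi (f : FreeGroup (Option Y)) (h : ∀ m, phi a₀ m f = 1) :
    f ∈ normalClosure {zz a₀} := by
  have h1 : psi a₀ f = 1 := by
    by_contra hne
    obtain ⟨m, hm'⟩ := exists_Phi_ne_one _ hne
    apply hm'
    have := DFunLike.congr_fun (Phi_psi a₀ m) f
    simp only [MonoidHom.comp_apply, h m, map_one] at this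
    exact this
  have h2 := DFunLike.congr_fun (theta_psi a₀) f
  rw [MonoidHom.comp_apply, h1, map_one] at h2
  exact (QuotientGroup.eq_one_iff _).1 h2.symm

/-- The kernel defining `Γ`. -/
def MM : Subgroup (FreeGroup (Option Y)) :=
  normalClosure (Set.range fun x : Option Y => ⁅zz a₀, FreeGroup.of x⁆)

instance : (MM a₀).Normal := by unfold MM; infer_instance

theorem zz_central : ((zz a₀ : FreeGroup (Option Y)) : FreeGroup (Option Y) ⧸ MM a₀) ∈
    center (FreeGroup (Option Y) ⧸ MM a₀) := by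
  set π := QuotientGroup.mk' (MM a₀) with hπ
  have hcen : (⊤ : Subgroup (FreeGroup (Option Y))) ≤
      (Subgroup.centralizer {π (zz a₀)}).comap π := by
    rw [← FreeGroup.closure_range_of, closure_le]
    rintro _ ⟨y, rfl⟩
    simp only [SetLike.mem_coe, mem_comap, mem_centralizer_iff, Set.mem_singleton_iff, forall_eq]
    have h1 : π ⁅zz a₀, FreeGroup.of y⁆ = 1 :=
      (QuotientGroup.eq_one_iff _).2 (subset_normalClosure ⟨y, rfl⟩)
    rw [map_commutatorElement, commutatorElement_eq_one_iff_mul_comm] at h1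
    exact h1
  rw [mem_center_iff]
  intro g
  obtain ⟨g, rfl⟩ := QuotientGroup.mk_surjective g
  have h1 := hcen (mem_top g)
  simp only [mem_comap, mem_centralizer_iff, Set.mem_singleton_iff, forall_eq] at h1
  exact h1.symm

theorem R_decomp (f : FreeGroup (Option Y)) (hf : f ∈ normalClosure {zz a₀}) :
    ∃ k : ℤ, f⁻¹ * (zz a₀) ^ k ∈ MM a₀ := by
  set ζ : FreeGroup (Option Y) ⧸ MM a₀ := ((zz a₀ : FreeGroup (Option Y)) :
    FreeGroup (Option Y) ⧸ MM a₀) with hζ
  have hnorm : (zpowers ζ).Normal := by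
    constructor
    rintro _ ⟨k, rfl⟩ g
    have h1 := zpow_mem (zz_central a₀) k
    rw [mem_center_iff] at h1
    refine ⟨k, ?_⟩
    simp only
    rw [hζ, h1 g]; group
  have hle : normalClosure {zz a₀} ≤ (zpowers ζ).comap (QuotientGroup.mk' (MM a₀)) := by
    apply normalClosure_le_normal
    rintro _ rfl
    exact mem_zpowers _
  obtain ⟨k, hk⟩ := hle hf
  refine ⟨k, ?_⟩
  rw [← QuotientGroup.eq]
  simp only [QuotientGroup.mk'_apply] at hk
  rw [← hk, QuotientGroup.mk_zpow]

end Res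

section Heis

/-- Elementary matrices of size `3`. -/
def e01 : Matrix (Fin 3) (Fin 3) ℤ := Matrix.single 0 1 1
def e12 : Matrix (Fin 3) (Fin 3) ℤ := Matrix.single 1 2 1
def e02 : Matrix (Fin 3) (Fin 3) ℤ := Matrix.single 0 2 1

theorem single_mem {n : ℕ} (i j : Fin n) (h : i < j) : (Matrix.single i j (1 : ℤ)) ∈ JJ n 1 := by
  intro r s hrs
  rw [Matrix.single_apply, if_neg]
  rintro ⟨rfl, rfl⟩
  have : (i : ℕ) < j := h
  omega

theorem single_sq {n : ℕ} (i j : Fin n) (h : i < j) :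
    (Matrix.single i j (1 : ℤ)) * (Matrix.single i j (1 : ℤ)) = 0 := by
  rw [Matrix.single_mul_single_of_ne]
  exact h.ne'

/-- The elementary unipotents. -/
def eu {n : ℕ} (i j : Fin n) (h : i < j) : UT n :=
  elemUnit (Matrix.single i j 1) (single_mem i j h) (single_sq i j h) (Multiplicative.ofAdd 1)

theorem eu_comm : ⁅eu (n := 3) 0 1 (by decide), eu (n := 3) 1 2 (by decide)⁆ =
    eu (n := 3) 0 2 (by decide) := by
  rw [commutatorElement_def, mul_inv_eq_iff_eq_mul, mul_inv_eq_iff_eq_mul]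
  apply Subtype.ext; apply Units.ext
  simp only [eu, Subgroup.coe_mul, Units.val_mul, elemUnit_val, toAdd_ofAdd, one_smul]
  decide +kernel

theorem eu_central (g : UT 3) : eu (n := 3) 0 2 (by decide) * g = g * eu (n := 3) 0 2 (by decide) := by
  apply Subtype.ext; apply Units.ext
  simp only [eu, Subgroup.coe_mul, Units.val_mul, elemUnit_val, toAdd_ofAdd, one_smul]
  have h1 := g.2.1
  set G : Matrix (Fin 3) (Fin 3) ℤ := ((g : (Matrix (Fin 3) (Fin 3) ℤ)ˣ) : Matrix (Fin 3) (Fin 3) ℤ)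
  have h2 : (Matrix.single (0 : Fin 3) (2 : Fin 3) (1 : ℤ)) * (G - 1) = 0 := by
    have h3 : (Matrix.single (0 : Fin 3) (2 : Fin 3) (1 : ℤ)) ∈ JJ 3 2 := by
      intro r s hrs
      rw [Matrix.single_apply, if_neg]
      rintro ⟨rfl, rfl⟩
      simp at hrs
    exact JJ_top (JJ_mul h3 h1)
  have h2' : (G - 1) * (Matrix.single (0 : Fin 3) (2 : Fin 3) (1 : ℤ)) = 0 := by
    have h3 : (Matrix.single (0 : Fin 3) (2 : Fin 3) (1 : ℤ)) ∈ JJ 3 2 := by
      intro r s hrs
      rw [Matrix.single_apply, if_neg]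
      rintro ⟨rfl, rfl⟩
      simp at hrs
    exact JJ_top (JJ_mul h1 h3)
  rw [mul_sub, mul_one, sub_eq_zero] at h2
  rw [sub_mul, one_mul, sub_eq_zero] at h2'
  rw [add_mul, mul_add, one_mul, mul_one, h2, h2']

theorem eu_zpow_ne (k : ℤ) (hk : k ≠ 0) : (eu (n := 3) 0 2 (by decide)) ^ k ≠ 1 := by
  intro h
  unfold eu at h
  rw [← map_zpow] at h
  have h1 := congrArg (fun u : UT 3 => ((u : (Matrix (Fin 3) (Fin 3) ℤ)ˣ) :
    Matrix (Fin 3) (Fin 3) ℤ) 0 2) h
  simp only [elemUnit_val] at h1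
  simp at h1
  exact hk h1

variable {Y : Type*} [DecidableEq Y] (a₀ : Y)

/-- The Heisenberg representation. -/
def heis : FreeGroup (Option Y) →* UT 3 :=
  FreeGroup.lift fun o => o.elim (eu 1 2 (by decide))
    (fun y => if y = a₀ then eu 0 1 (by decide) else 1)

theorem heis_zz : heis a₀ (zz a₀) = eu 0 2 (by decide) := by
  unfold zz
  rw [map_commutatorElement]
  simp only [heis, FreeGroup.lift_apply_of, Option.elim_some, Option.elim_none, if_true]
  exact eu_comm

theorem MM_le_heis : MM a₀ ≤ (heis a₀).ker := by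
  unfold MM
  apply normalClosure_le_normal
  rintro _ ⟨x, rfl⟩
  simp only [SetLike.mem_coe, MonoidHom.mem_ker]
  rw [map_commutatorElement, commutatorElement_eq_one_iff_mul_comm, heis_zz]
  exact eu_central _

theorem MM_le_phi (m : ℕ) : MM a₀ ≤ (phi a₀ m).ker := by
  unfold MM
  apply normalClosure_le_normal
  rintro _ ⟨x, rfl⟩
  simp only [SetLike.mem_coe, MonoidHom.mem_ker]
  rw [map_commutatorElement, phi_zz, commutatorElement_one_left]

/-- `z` has infinite order in `Γ`. -/
theorem zz_zpow (k : ℤ) (h : (zz a₀) ^ k ∈ MM a₀) : k = 0 := by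
  by_contra hk
  have h1 := MM_le_heis a₀ h
  rw [MonoidHom.mem_ker, map_zpow, heis_zz] at h1
  exact eu_zpow_ne k hk h1

/-- The group `Γ` is detected by unitriangular groups. -/
theorem gamma_det : DetUT (FreeGroup (Option Y) ⧸ MM a₀) := by
  intro g hg
  obtain ⟨f, rfl⟩ := QuotientGroup.mk_surjective g
  by_cases h : ∀ m, phi a₀ m f = 1
  · have h1 := mem_R_of_phi a₀ f h
    obtain ⟨k, hk⟩ := R_decomp a₀ f h1
    refine ⟨3, QuotientGroup.lift (MM a₀) (heis a₀) (MM_le_heis a₀), ?_⟩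
    intro h2
    have h3 : heis a₀ f = 1 := h2
    have h4 := MM_le_heis a₀ hk
    rw [MonoidHom.mem_ker, map_mul, map_inv, h3, inv_one, one_mul, map_zpow, heis_zz] at h4
    by_cases hk0 : k = 0
    · subst hk0
      apply hg
      rw [QuotientGroup.eq_one_iff]
      simpa using hk
    · exact eu_zpow_ne k hk0 h4
  · push Not at h
    obtain ⟨m, hm'⟩ := h
    apply (free_det Y).of_hom _ (QuotientGroup.lift (MM a₀) (phi a₀ m) (MM_le_phi a₀ m))
    exact hm'

end Heis

end Pool.Agent.W_MP_f5b23d_al
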