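import Mathlib

set_option autoImplicit false

namespace Pool.Agent.W_MP_f5b23d_al

open Subgroup
open scoped commutatorElement

section Iter

variable {G : Type*} [Group G]

/-- iterated commutators `[N, G, ..., G]`. -/
def iter (N : Subgroup G) : ℕ → Subgroup G
  | 0 => N
  | n + 1 => ⁅iter N n, (⊤ : Subgroup G)⁆

instance iter_normal (N : Subgroup G) [N.Normal] (n : ℕ) : (iter N n).Normal := by
  induction n with
  | zero => simpa [iter]
  | succ n ih => rw [iter]; infer_instance

/-- Three subgroups lemma modulo a normal subgroup. -/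
theorem three_mod (A B C L : Subgroup G) [L.Normal] (h1 : ⁅⁅B, C⁆, A⁆ ≤ L)
    (h2 : ⁅⁅C, A⁆, B⁆ ≤ L) : ⁅⁅A, B⁆, C⁆ ≤ L := by
  have key : ∀ H : Subgroup G, H ≤ L ↔ H.map (QuotientGroup.mk' L) = ⊥ := by
    intro H
    rw [Subgroup.map_eq_bot_iff, QuotientGroup.ker_mk']
  rw [key] at *
  simp only [Subgroup.map_commutator] at *
  exact commutator_commutator_eq_bot_of_rotate h1 h2

theorem comm_iter_lcs (N : Subgroup G) [N.Normal] (n : ℕ) : ∀ m : ℕ,
    ⁅iter N m, (⊤ : Subgroup G).lowerCentralSeries n⁆ ≤ iter N (m + n + 1) := by
  induction n with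
  | zero => intro m; exact le_rfl
  | succ n ih =>
    intro m
    rw [Subgroup.lowerCentralSeries_succ, commutator_comm]
    apply three_mod
    · -- ⁅⁅⊤, iter m⁆, lcs n⁆
      have : ⁅(⊤ : Subgroup G), iter N m⁆ = iter N (m + 1) := by
        rw [commutator_comm]; rfl
      rw [this]
      have h := ih (m + 1)
      have e : m + 1 + n + 1 = m + (n + 1) + 1 := by ring
      rwa [e] at h
    · -- ⁅⁅iter m, lcs n⁆, ⊤⁆
      have h := ih m
      have h2 : ⁅⁅iter N m, (⊤ : Subgroup G).lowerCentralSeries n⁆, (⊤ : Subgroup G)⁆
          ≤ ⁅iter N (m + n + 1), (⊤ : Subgroup G)⁆ := commutator_mono h le_rfl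
      exact h2

/-- Homomorphisms congruent mod `N` are congruent mod `iter N n` on the `n`-th term of the lower
central series. -/
theorem cong_lcs {F : Type*} [Group F] (N : Subgroup G) [N.Normal] (s s' : F →* G)
    (h : ∀ f, (s f)⁻¹ * s' f ∈ N) (n : ℕ) :
    ∀ f ∈ (⊤ : Subgroup F).lowerCentralSeries n, (s f)⁻¹ * s' f ∈ iter N n := by
  induction n with
  | zero => intro f _; exact h f
  | succ n ih =>
    have hle : (⊤ : Subgroup F).lowerCentralSeries (n + 1) ≤
        MonoidHom.eqLocus ((QuotientGroup.mk' (iter N (n + 1))).comp s)
          ((QuotientGroup.mk' (iter N (n + 1))).comp s') := by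
      rw [Subgroup.lowerCentralSeries_succ, commutator_le]
      intro a ha b _
      change ((QuotientGroup.mk' (iter N (n + 1))).comp s) ⁅a, b⁆ =
        ((QuotientGroup.mk' (iter N (n + 1))).comp s') ⁅a, b⁆
      set π := QuotientGroup.mk' (iter N (n + 1)) with hπ
      have hl : (s a)⁻¹ * s' a ∈ iter N n := ih a ha
      have hk : (s b)⁻¹ * s' b ∈ N := h b
      set l := (s a)⁻¹ * s' a with hldef
      set k := (s b)⁻¹ * s' b with hkdef
      have e1 : s' a = s a * l := by rw [hldef]; group
      have e2 : s' b = s b * k := by rw [hkdef]; group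
      have hker : ∀ x : G, x ∈ iter N (n + 1) → π x = 1 := fun x hx =>
        (QuotientGroup.eq_one_iff x).2 hx
      -- `π l` is central
      have c1 : ∀ g : G, π l * π g = π g * π l := by
        intro g
        have : ⁅l, g⁆ ∈ iter N (n + 1) := commutator_mem_commutator hl (mem_top g)
        have h3 := hker _ this
        rw [map_commutatorElement, commutatorElement_eq_one_iff_mul_comm] at h3
        exact h3
      have hsa : s a ∈ (⊤ : Subgroup G).lowerCentralSeries n := by
        have h0 := Subgroup.mem_map_of_mem s ha
        rw [Subgroup.map_lowerCentralSeries] at h0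
        exact Subgroup.lowerCentralSeries_mono n le_top h0
      have c2 : π k * π (s a) = π (s a) * π k := by
        have h4 : ⁅k, s a⁆ ∈ iter N (0 + n + 1) :=
          comm_iter_lcs N n 0 (commutator_mem_commutator hk hsa)
        rw [Nat.zero_add] at h4
        have h3 := hker _ h4
        rw [map_commutatorElement, commutatorElement_eq_one_iff_mul_comm] at h3
        exact h3
      have c1' : π l * (π (s b) * π k) = (π (s b) * π k) * π l := by
        have := c1 (s b * k)
        rwa [map_mul π (s b) k] at this
      have c1'' := c1 (s a)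
      simp only [MonoidHom.comp_apply, map_commutatorElement]
      rw [e1, e2]
      simp only [commutatorElement_def, map_mul π (s a) l, map_mul π (s b) k]
      clear_value l k
      -- abstract computation
      generalize π (s a) = A at *
      generalize π (s b) = B at *
      generalize π l = l' at *
      generalize π k = k' at *
      calc A * B * A⁻¹ * B⁻¹ = A * B * (k' * A⁻¹ * k'⁻¹) * B⁻¹ := by
            have : k' * A⁻¹ * k'⁻¹ = A⁻¹ := by
              have h5 : k' * A⁻¹ = A⁻¹ * k' := by
                have := congrArg (fun t => A⁻¹ * t * A⁻¹) c2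
                simp only [mul_assoc] at this
                simpa [mul_assoc] using this.symm
              rw [h5]; group
            rw [this]
        _ = A * (B * k') * A⁻¹ * (B * k')⁻¹ := by group
        _ = A * (l' * (B * k') * l'⁻¹) * A⁻¹ * (B * k')⁻¹ := by
            rw [c1']; group
        _ = A * l' * (B * k') * (A * l')⁻¹ * (B * k')⁻¹ := by group
    intro f hf
    have := hle hf
    exact QuotientGroup.eq.1 this

end Iter

section Free

variable {X : Type*} (c : X → FreeGroup X) (z : FreeGroup X)

/-- The relators: `x = c x` for all generators `x`, and `z` is central. -/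
def rels : Set (FreeGroup X) :=
  (Set.range fun x => (FreeGroup.of x)⁻¹ * c x) ∪ Set.range fun x => ⁅z, FreeGroup.of x⁆

/-- The endomorphism `x ↦ c x`. -/
def sn : ℕ → (FreeGroup X →* FreeGroup X)
  | 0 => MonoidHom.id _
  | n + 1 => (sn n).comp (FreeGroup.lift c)

theorem sig_cong (f : FreeGroup X) :
    f⁻¹ * (FreeGroup.lift c f) ∈ normalClosure (rels c z) := by
  have : (QuotientGroup.mk' (normalClosure (rels c z))) =
      (QuotientGroup.mk' (normalClosure (rels c z))).comp (FreeGroup.lift c) := by
    ext x
    simp only [MonoidHom.comp_apply, FreeGroup.lift_apply_of, QuotientGroup.mk'_apply]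
    rw [QuotientGroup.eq]
    exact subset_normalClosure (Or.inl ⟨x, rfl⟩)
  have h := DFunLike.congr_fun this f
  exact QuotientGroup.eq.1 h

theorem sn_cong (n : ℕ) : ∀ f : FreeGroup X,
    f⁻¹ * (sn c n f) ∈ normalClosure (rels c z) := by
  induction n with
  | zero => intro f; simp [sn]
  | succ n ih =>
    intro f
    have h1 := sig_cong c z f
    have h2 := ih (FreeGroup.lift c f)
    have h3 := mul_mem h1 h2
    simpa [sn, mul_assoc] using h3

variable (hc : ∀ x, c x ∈ commutator (FreeGroup X))

include hc in
theorem sn_succ_cong (n : ℕ) : ∀ f : FreeGroup X,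
    (sn c n f)⁻¹ * (sn c (n + 1) f) ∈ iter (normalClosure (rels c z)) n := by
  induction n with
  | zero => intro f; exact sig_cong c z f
  | succ n ih =>
    -- check on generators
    set N := normalClosure (rels c z) with hN
    have : (QuotientGroup.mk' (iter N (n + 1))).comp (sn c (n + 1)) =
        (QuotientGroup.mk' (iter N (n + 1))).comp (sn c (n + 1 + 1)) := by
      ext x
      simp only [MonoidHom.comp_apply, sn, FreeGroup.lift_apply_of, QuotientGroup.mk'_apply]
      rw [QuotientGroup.eq]
      have h1 := cong_lcs (iter N n) (sn c n) (sn c (n + 1)) ih 1 (c x) (hc x)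
      exact h1
    intro f
    have h := DFunLike.congr_fun this f
    exact QuotientGroup.eq.1 h

include hc in
theorem sn_rels (n : ℕ) : normalClosure (rels c z) ≤
    (iter (normalClosure (rels c z)) n).comap (sn c n) := by
  induction n with
  | zero => intro f hf; simpa [sn, iter] using hf
  | succ n ih =>
    apply normalClosure_le_normal
    set N := normalClosure (rels c z) with hN
    rintro r (⟨x, rfl⟩ | ⟨x, rfl⟩)
    · simp only [SetLike.mem_coe, mem_comap, map_mul, map_inv]
      have h := sn_succ_cong c z hc (n + 1) (FreeGroup.of x)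
      simpa [sn] using h
    · simp only [SetLike.mem_coe, mem_comap]
      -- abbreviations
      set s := sn c (n + 1) with hs
      set π := QuotientGroup.mk' (iter N (n + 1)) with hπ
      have hker : ∀ x : FreeGroup X, x ∈ iter N (n + 1) → π x = 1 := fun x hx =>
        (QuotientGroup.eq_one_iff x).2 hx
      -- `s [z, g]` lies in `iter N n` for all generators
      have hgen : ∀ y : X, s ⁅z, FreeGroup.of y⁆ ∈ iter N n := by
        intro y
        have h1 : sn c n ⁅z, FreeGroup.of y⁆ ∈ iter N n :=
          ih (subset_normalClosure (Or.inr ⟨y, rfl⟩))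
        have h2 := sn_succ_cong c z hc n ⁅z, FreeGroup.of y⁆
        have h3 := mul_mem h1 h2
        rwa [mul_inv_cancel_left] at h3
      -- hence for all `g`
      have hall : ∀ g : FreeGroup X, s ⁅z, g⁆ ∈ iter N n := by
        have hcen : (⊤ : Subgroup (FreeGroup X)) ≤
            (Subgroup.centralizer {QuotientGroup.mk' (iter N n) (s z)}).comap
              ((QuotientGroup.mk' (iter N n)).comp s) := by
          rw [← FreeGroup.closure_range_of, closure_le]
          rintro _ ⟨y, rfl⟩
          simp only [SetLike.mem_coe, mem_comap, MonoidHom.comp_apply, mem_centralizer_iff,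
            Set.mem_singleton_iff, forall_eq]
          have h1 := (QuotientGroup.eq_one_iff _).2 (hgen y)
          have h2 : QuotientGroup.mk' (iter N n) (s ⁅z, FreeGroup.of y⁆) = 1 := h1
          rw [map_commutatorElement, map_commutatorElement,
            commutatorElement_eq_one_iff_mul_comm] at h2
          exact h2
        intro g
        have h1 := hcen (mem_top g)
        simp only [mem_comap, MonoidHom.comp_apply, mem_centralizer_iff,
            Set.mem_singleton_iff, forall_eq] at h1
        rw [← commutatorElement_eq_one_iff_mul_comm, ← map_commutatorElement,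
          ← map_commutatorElement] at h1
        exact (QuotientGroup.eq_one_iff _).1 h1
      have hcent : ∀ g : FreeGroup X, ∀ h : FreeGroup X,
          π (s ⁅z, g⁆) * π h = π h * π (s ⁅z, g⁆) := by
        intro g h
        have h1 : ⁅s ⁅z, g⁆, h⁆ ∈ iter N (n + 1) := commutator_mem_commutator (hall g) (mem_top h)
        have h3 := hker _ h1
        rw [map_commutatorElement, commutatorElement_eq_one_iff_mul_comm] at h3
        exact h3
      -- the subgroup of `g` with `π s [z,g] = 1` contains commutators
      have hcom : ∀ g ∈ commutator (FreeGroup X), π (s g) * π (s z) = π (s z) * π (s g) := by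
        intro g hg
        have hle : commutator (FreeGroup X) ≤
            (Subgroup.centralizer {π (s z)}).comap (π.comp s) := by
          rw [_root_.commutator_def, commutator_le]
          intro a _ b _
          simp only [mem_comap, MonoidHom.comp_apply, mem_centralizer_iff,
            Set.mem_singleton_iff, forall_eq]
          -- `ζ a = (a . u) ζ` with `u` central
          have ha := hcent a
          have hb := hcent b
          simp only [map_commutatorElement] at ha hb ⊢
          have ha' : ∀ h : FreeGroup X, Commute ⁅π (s z), π (s a)⁆ (π h) := ha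
          have hb' : ∀ h : FreeGroup X, Commute ⁅π (s z), π (s b)⁆ (π h) := hb
          have ha1 := ha' (s a)
          have ha2 := ha' (s b)
          have ha3 := ha' (s z)
          have hb1 := hb' (s a)
          have hb2 := hb' (s b)
          have hb3 := hb' (s z)
          have huv' : Commute ⁅π (s z), π (s a)⁆ ⁅π (s z), π (s b)⁆ := by
            have := ha' (s ⁅z, b⁆)
            rwa [map_commutatorElement, map_commutatorElement] at this
          clear hgen hall hcent ha hb ha' hb'
          generalize π (s z) = Z at *
          generalize π (s a) = A at *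
          generalize π (s b) = B at *
          have hA : Z * A * Z⁻¹ = ⁅Z, A⁆ * A := by simp [commutatorElement_def]
          have hB : Z * B * Z⁻¹ = ⁅Z, B⁆ * B := by simp [commutatorElement_def]
          generalize ⁅Z, A⁆ = u at *
          generalize ⁅Z, B⁆ = v at *
          have huv : Z * ⁅A, B⁆ * Z⁻¹ = ⁅A, B⁆ := by
            calc Z * ⁅A, B⁆ * Z⁻¹ = (Z * A * Z⁻¹) * (Z * B * Z⁻¹) * (Z * A * Z⁻¹)⁻¹ *
                    (Z * B * Z⁻¹)⁻¹ := by
                  rw [commutatorElement_def]; group
              _ = (u * A) * (v * B) * (u * A)⁻¹ * (v * B)⁻¹ := by rw [hA, hB]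
              _ = (A * u) * (B * v) * (A * u)⁻¹ * (B * v)⁻¹ := by
                  rw [ha1.eq, hb2.eq]
              _ = A * (u * (B * v)) * u⁻¹ * A⁻¹ * (B * v)⁻¹ := by group
              _ = A * ((B * v) * u) * u⁻¹ * A⁻¹ * (B * v)⁻¹ := by
                  rw [(ha2.mul_right huv').eq]
              _ = A * B * (v * A⁻¹) * v⁻¹ * B⁻¹ := by group
              _ = A * B * (A⁻¹ * v) * v⁻¹ * B⁻¹ := by rw [hb1.inv_right.eq]
              _ = ⁅A, B⁆ := by rw [commutatorElement_def]; group
          calc Z * ⁅A, B⁆ = (Z * ⁅A, B⁆ * Z⁻¹) * Z := by group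
            _ = ⁅A, B⁆ * Z := by rw [huv]
        have h1 := hle hg
        simp only [mem_comap, MonoidHom.comp_apply, mem_centralizer_iff,
            Set.mem_singleton_iff, forall_eq] at h1
        exact h1.symm
      have h1 := hcom (c x) (hc x)
      -- `s (c x) ≡ s x`
      have h2 : π (s (c x)) = π (s (FreeGroup.of x)) := by
        have h := sn_succ_cong c z hc (n + 1) (FreeGroup.of x)
        have h' : (s (FreeGroup.of x))⁻¹ * s (c x) ∈ iter N (n + 1) := by
          simpa [sn, hs] using h
        exact (QuotientGroup.eq.2 h').symm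
      rw [h2] at h1
      have h3 : π (s ⁅z, FreeGroup.of x⁆) = 1 := by
        rw [map_commutatorElement, map_commutatorElement, commutatorElement_eq_one_iff_mul_comm]
        exact h1.symm
      exact (QuotientGroup.eq_one_iff _).1 h3

include hc in
/-- The key fact: `N ∩ γ_n(F) ≤ [N, F, ..., F]`. -/
theorem inf_lcs_le (n : ℕ) (f : FreeGroup X) (hf : f ∈ normalClosure (rels c z))
    (hf' : f ∈ (⊤ : Subgroup (FreeGroup X)).lowerCentralSeries n) :
    f ∈ iter (normalClosure (rels c z)) n := by
  have h1 := cong_lcs (normalClosure (rels c z)) (MonoidHom.id _) (sn c n) (sn_cong c z n) n f hf'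
  have h2 : sn c n f ∈ iter (normalClosure (rels c z)) n := sn_rels c z hc n hf
  have h3 := mul_mem h2 (inv_mem h1)
  simpa using h3

end Free

end Pool.Agent.W_MP_f5b23d_al
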