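import Pool.Agent.W_MP_f5b23d_al.Gamma
import Pool.Agent.W_MP_f5b23d_al.Fibre

set_option autoImplicit false

namespace Pool.Agent.W_MP_f5b23d_al

open Subgroup
open scoped commutatorElement

/-- The unit `1 + e A` for `A * A = 0`. -/
def nilUnit {n : ℕ} (A : Matrix (Fin n) (Fin n) ℤ) (hA2 : A * A = 0) :
    Multiplicative ℤ →* (Matrix (Fin n) (Fin n) ℤ)ˣ where
  toFun e := ⟨1 + e.toAdd • A, 1 - e.toAdd • A, by
      simp only [mul_sub, add_mul, smul_mul_assoc, mul_smul_comm, hA2, smul_zero, one_mul, mul_one]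
      abel_nf, by
      simp only [mul_add, sub_mul, smul_mul_assoc, mul_smul_comm, hA2, smul_zero, one_mul, mul_one]
      abel_nf⟩
  map_one' := by
    apply Units.ext; simp
  map_mul' e f := by
    apply Units.ext
    simp only [Units.val_mul, toAdd_mul]
    simp only [add_mul, mul_add, smul_mul_assoc, mul_smul_comm, hA2, smul_zero, add_smul, one_mul,
      mul_one]
    abel_nf

@[simp] theorem nilUnit_val {n : ℕ} (A : Matrix (Fin n) (Fin n) ℤ)
    (hA2 : A * A = 0) (e : Multiplicative ℤ) :
    ((nilUnit A hA2 e : (Matrix (Fin n) (Fin n) ℤ)ˣ) : Matrix (Fin n) (Fin n) ℤ) =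
      1 + e.toAdd • A := rfl

theorem single_sq' {n : ℕ} (i j : Fin n) (h : i ≠ j) :
    (Matrix.single i j (1 : ℤ)) * (Matrix.single i j (1 : ℤ)) = 0 := by
  rw [Matrix.single_mul_single_of_ne]
  exact h.symm

/-- The generators. -/
abbrev XX := Option (Fin 9)

/-- Positions of the elementary matrices. -/
def pos : XX → Fin 5 × Fin 5
  | none => (1, 4)
  | some y => ![(0, 1), (0, 2), (1, 2), (1, 3), (2, 1), (2, 3), (3, 1), (3, 2), (2, 4)] y

theorem pos_ne (x : XX) : (pos x).1 ≠ (pos x).2 := by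
  revert x; decide

/-- The relations are `x = [pp x, qq x]`. -/
def pp : XX → XX
  | none => some 2
  | some y => ![some 1, some 0, some 3, some 2, some 5, some 4, some 7, some 6, some 4] y

/-- The relations are `x = [pp x, qq x]`. -/
def qq : XX → XX
  | none => some 8
  | some y => ![some 4, some 2, some 7, some 5, some 6, some 3, some 4, some 2, none] y

/-- The right-hand sides of the relations. -/
def cc (x : XX) : FreeGroup XX := ⁅FreeGroup.of (pp x), FreeGroup.of (qq x)⁆

theorem cc_mem (x : XX) : cc x ∈ commutator (FreeGroup XX) :=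
  commutator_mem_commutator (mem_top _) (mem_top _)

/-- The elementary matrix of a generator. -/
def gu (x : XX) : (Matrix (Fin 5) (Fin 5) ℤ)ˣ :=
  nilUnit (Matrix.single (pos x).1 (pos x).2 1) (single_sq' _ _ (pos_ne x))
    (Multiplicative.ofAdd 1)

theorem gu_rel (x : XX) : ⁅gu (pp x), gu (qq x)⁆ = gu x := by
  rw [commutatorElement_def, mul_inv_eq_iff_eq_mul, mul_inv_eq_iff_eq_mul]
  apply Units.ext
  simp only [gu, Units.val_mul, nilUnit_val, toAdd_ofAdd, one_smul]
  revert x
  decide +kernel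

/-- The central elementary matrix. -/
def zu : (Matrix (Fin 5) (Fin 5) ℤ)ˣ :=
  nilUnit (Matrix.single 0 4 1) (single_sq' _ _ (by decide)) (Multiplicative.ofAdd 1)

theorem zu_eq : ⁅gu (some 0), gu none⁆ = zu := by
  rw [commutatorElement_def, mul_inv_eq_iff_eq_mul, mul_inv_eq_iff_eq_mul]
  apply Units.ext
  simp only [gu, zu, Units.val_mul, nilUnit_val, toAdd_ofAdd, one_smul]
  decide +kernel

theorem zu_central (x : XX) : zu * gu x = gu x * zu := by
  apply Units.ext
  simp only [gu, zu, Units.val_mul, nilUnit_val, toAdd_ofAdd, one_smul]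
  revert x
  decide +kernel

theorem zu_zpow (k : ℤ) (h : zu ^ k = 1) : k = 0 := by
  unfold zu at h
  rw [← map_zpow] at h
  have h1 := congrArg (fun u : (Matrix (Fin 5) (Fin 5) ℤ)ˣ => (u :
    Matrix (Fin 5) (Fin 5) ℤ) 0 4) h
  simp only [nilUnit_val] at h1
  simpa using h1

/-- The representation of the free group by elementary matrices. -/
def rho : FreeGroup XX →* (Matrix (Fin 5) (Fin 5) ℤ)ˣ := FreeGroup.lift gu

theorem rho_zz : rho (zz (0 : Fin 9)) = zu := by
  unfold zz rho
  rw [map_commutatorElement, FreeGroup.lift_apply_of, FreeGroup.lift_apply_of, zu_eq]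

/-- The normal closure of the relators of the quotient `Q`. -/
abbrev NN : Subgroup (FreeGroup XX) := normalClosure (rels cc (zz (0 : Fin 9)))

theorem NN_le_rho : NN ≤ rho.ker := by
  apply normalClosure_le_normal
  rintro _ (⟨x, rfl⟩ | ⟨x, rfl⟩)
  · simp only [SetLike.mem_coe, MonoidHom.mem_ker, map_mul, map_inv]
    unfold cc
    rw [map_commutatorElement]
    simp only [rho, FreeGroup.lift_apply_of]
    rw [gu_rel, inv_mul_cancel]
  · simp only [SetLike.mem_coe, MonoidHom.mem_ker]
    rw [map_commutatorElement, commutatorElement_eq_one_iff_mul_comm, rho_zz]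
    simp only [rho, FreeGroup.lift_apply_of]
    exact zu_central x

theorem zz_zpow_NN (k : ℤ) (h : (zz (0 : Fin 9)) ^ k ∈ NN) : k = 0 := by
  have h1 := NN_le_rho h
  rw [MonoidHom.mem_ker, map_zpow, rho_zz] at h1
  exact zu_zpow k h1

theorem MM_le_NN : MM (0 : Fin 9) ≤ NN :=
  normalClosure_mono Set.subset_union_right

/-- The group `Γ`. -/
abbrev Gam : Type := FreeGroup XX ⧸ MM (0 : Fin 9)

/-- The direct product. -/
abbrev HH : Type := Gam × FreeGroup XX

/-- The fibre product. -/
abbrev GG : Subgroup HH := fib cc (zz (0 : Fin 9)) (MM (0 : Fin 9)) MM_le_NN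

theorem fg_HH : Group.FG HH := by
  have h1 : Group.FG Gam := QuotientGroup.fg _
  infer_instance

theorem fg_GG : Group.FG GG := fib_fg _ _ _ _

theorem det_HH : DetUT HH := by
  rintro ⟨g, f⟩ hgf
  by_cases hg : g = 1
  · have hf : f ≠ 1 := by
      rintro rfl
      exact hgf (by rw [hg]; rfl)
    exact (free_det XX).of_hom _ (MonoidHom.snd Gam (FreeGroup XX)) hf
  · exact (gamma_det (0 : Fin 9)).of_hom _ (MonoidHom.fst Gam (FreeGroup XX)) hg

theorem det_GG : DetUT GG := by
  intro g hg
  apply det_HH.of_hom g GG.subtype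
  intro h
  exact hg (Subtype.ext h)

theorem frattini_HH : frattini HH ≠ ⊥ := by
  intro h
  have h1 : (((zz (0 : Fin 9) : FreeGroup XX) : Gam), (1 : FreeGroup XX)) ∈ frattini HH := by
    apply center_inf_commutator_le_frattini
    · rw [mem_center_iff]
      rintro ⟨g, f⟩
      have h2 := zz_central (0 : Fin 9)
      rw [mem_center_iff] at h2
      ext
      · simpa using h2 g
      · simp
    · have h2 : (((zz (0 : Fin 9) : FreeGroup XX) : Gam), (1 : FreeGroup XX)) =
          ⁅(MonoidHom.inl Gam (FreeGroup XX)) ((FreeGroup.of (some 0) : FreeGroup XX) : Gam),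
            (MonoidHom.inl Gam (FreeGroup XX)) ((FreeGroup.of none : FreeGroup XX) : Gam)⁆ := by
        rw [← map_commutatorElement]
        rfl
      rw [h2]
      exact commutator_mem_commutator (mem_top _) (mem_top _)
  rw [h, mem_bot] at h1
  have h2 : ((zz (0 : Fin 9) : FreeGroup XX) : Gam) = 1 := congrArg Prod.fst h1
  rw [QuotientGroup.eq_one_iff] at h2
  have h3 := zz_zpow (0 : Fin 9) 1 (by simpa using h2)
  exact one_ne_zero h3

theorem frattini_GG : frattini GG = ⊥ := by
  rw [eq_bot_iff]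
  rintro ⟨⟨g, f⟩, hgf⟩ hx
  obtain ⟨g, rfl⟩ := QuotientGroup.mk_surjective g
  -- second coordinate
  have hf : f = 1 := by
    have hs : Function.Surjective ((MonoidHom.snd Gam (FreeGroup XX)).comp GG.subtype) := by
      intro f
      exact ⟨⟨((f : Gam), f), diag_mem_fib _ _ _ _ f⟩, rfl⟩
    have h1 := frattini_le_comap_frattini_of_surjective hs hx
    rw [free_frattini, mem_comap, mem_bot] at h1
    exact h1
  subst hf
  -- the images in free groups
  have hg : ∀ m, phi (0 : Fin 9) m g = 1 := by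
    intro m
    have hs : Function.Surjective (((QuotientGroup.lift (MM (0 : Fin 9)) (phi (0 : Fin 9) m)
        (MM_le_phi (0 : Fin 9) m)).comp (MonoidHom.fst Gam (FreeGroup XX))).comp GG.subtype) := by
      intro f
      obtain ⟨f, rfl⟩ := phi_surjective (0 : Fin 9) m f
      exact ⟨⟨((f : Gam), f), diag_mem_fib _ _ _ _ f⟩, rfl⟩
    have h1 := frattini_le_comap_frattini_of_surjective hs hx
    rw [free_frattini, mem_comap, mem_bot] at h1
    exact h1
  have hN : g ∈ NN := by
    have h1 := (mem_fib cc (zz (0 : Fin 9)) (MM (0 : Fin 9)) MM_le_NN g 1).1 hgf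
    simpa using h1
  obtain ⟨k, hk⟩ := R_decomp (0 : Fin 9) g (mem_R_of_phi (0 : Fin 9) g hg)
  have hk0 : k = 0 := by
    apply zz_zpow_NN
    have h1 := mul_mem hN (MM_le_NN hk)
    simpa using h1
  subst hk0
  rw [mem_bot]
  apply Subtype.ext
  change ((g : Gam), (1 : FreeGroup XX)) = 1
  have h1 : (g : Gam) = 1 := by
    rw [QuotientGroup.eq_one_iff]
    simpa using hk
  rw [h1]
  rfl

theorem main : ∃ (G H : Type) (_ : Group G) (_ : Group H), Group.FG G ∧ Group.FG H ∧
    DetUT G ∧ DetUT H ∧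
    (∀ n : ℕ, Nonempty ((G ⧸ (⊤ : Subgroup G).lowerCentralSeries n) ≃*
      (H ⧸ (⊤ : Subgroup H).lowerCentralSeries n))) ∧
    frattini G = ⊥ ∧ frattini H ≠ ⊥ :=
  ⟨GG, HH, inferInstance, inferInstance, fg_GG, fg_HH, det_GG, det_HH,
    fib_genus _ _ _ _ cc_mem, frattini_GG, frattini_HH⟩

end Pool.Agent.W_MP_f5b23d_al
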