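import Mathlib

set_option autoImplicit false

namespace Pool.Agent.W_MP_f5b23d_al

open Subgroup
open scoped commutatorElement

/-- Integer matrices with zero entries below the `k`-th superdiagonal. -/
def JJ (n k : ℕ) : AddSubgroup (Matrix (Fin n) (Fin n) ℤ) where
  carrier := {M | ∀ i j : Fin n, (j : ℕ) < i + k → M i j = 0}
  zero_mem' := by intro i j _; rfl
  add_mem' := by
    intro a b ha hb i j h
    simp [ha i j h, hb i j h]
  neg_mem' := by
    intro a ha i j h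
    simp [ha i j h]

theorem JJ_mul {n k l : ℕ} {a b : Matrix (Fin n) (Fin n) ℤ} (ha : a ∈ JJ n k) (hb : b ∈ JJ n l) :
    a * b ∈ JJ n (k + l) := by
  intro i j h
  rw [Matrix.mul_apply]
  apply Finset.sum_eq_zero
  intro s _
  by_cases h1 : (s : ℕ) < i + k
  · rw [ha i s h1, zero_mul]
  · rw [hb s j (by omega), mul_zero]

theorem JJ_mono {n k l : ℕ} (h : k ≤ l) : JJ n l ≤ JJ n k := by
  intro a ha i j hij
  exact ha i j (by omega)

theorem JJ_top {n : ℕ} {a : Matrix (Fin n) (Fin n) ℤ} (ha : a ∈ JJ n n) : a = 0 := by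
  ext i j
  exact ha i j (by omega)

theorem JJ_one {n : ℕ} : (1 : Matrix (Fin n) (Fin n) ℤ) ∈ JJ n 0 := by
  intro i j h
  have : i ≠ j := by rintro rfl; omega
  exact Matrix.one_apply_ne this

/-- The group of upper unitriangular integer matrices. -/
def UT (n : ℕ) : Subgroup (Matrix (Fin n) (Fin n) ℤ)ˣ where
  carrier := {u | (u : Matrix (Fin n) (Fin n) ℤ) - 1 ∈ JJ n 1 ∧
    ((u⁻¹ : (Matrix (Fin n) (Fin n) ℤ)ˣ) : Matrix (Fin n) (Fin n) ℤ) - 1 ∈ JJ n 1}
  one_mem' := by simp [zero_mem]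
  mul_mem' := by
    have key : ∀ a b : Matrix (Fin n) (Fin n) ℤ, a - 1 ∈ JJ n 1 → b - 1 ∈ JJ n 1 →
        a * b - 1 ∈ JJ n 1 := by
      intro a b ha hb
      have : a * b - 1 = (a - 1) * (b - 1) + (a - 1) + (b - 1) := by noncomm_ring
      rw [this]
      exact add_mem (add_mem (JJ_mono (by omega) (JJ_mul ha hb)) ha) hb
    rintro a b ⟨ha, ha'⟩ ⟨hb, hb'⟩
    refine ⟨by simpa using key _ _ ha hb, by simpa using key _ _ hb' ha'⟩
  inv_mem' := by
    rintro a ⟨ha, ha'⟩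
    exact ⟨ha', by simpa using ha⟩

theorem UT_zero {n : ℕ} (u : UT n) : ((u : (Matrix (Fin n) (Fin n) ℤ)ˣ) : Matrix (Fin n) (Fin n) ℤ)
    ∈ JJ n 0 := by
  have h := add_mem (JJ_mono (Nat.zero_le 1) u.2.1) JJ_one
  simpa using h

theorem UT_inv_zero {n : ℕ} (u : UT n) :
    (((u : (Matrix (Fin n) (Fin n) ℤ)ˣ)⁻¹ : (Matrix (Fin n) (Fin n) ℤ)ˣ) :
      Matrix (Fin n) (Fin n) ℤ) ∈ JJ n 0 := by
  have h := add_mem (JJ_mono (Nat.zero_le 1) u.2.2) JJ_one
  simpa using h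

/-- The filtration of `UT n`. -/
def UTf (n k : ℕ) : Subgroup (UT n) where
  carrier := {u | ((u : (Matrix (Fin n) (Fin n) ℤ)ˣ) : Matrix (Fin n) (Fin n) ℤ) - 1 ∈ JJ n (k + 1)}
  one_mem' := by simp [zero_mem]
  mul_mem' := by
    intro a b ha hb
    simp only [Set.mem_ofPred_eq, Subgroup.coe_mul, Units.val_mul] at *
    have : (((a : (Matrix (Fin n) (Fin n) ℤ)ˣ) : Matrix (Fin n) (Fin n) ℤ) *
        ((b : (Matrix (Fin n) (Fin n) ℤ)ˣ) : Matrix (Fin n) (Fin n) ℤ)) - 1 =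
        (((a : (Matrix (Fin n) (Fin n) ℤ)ˣ) : Matrix (Fin n) (Fin n) ℤ) - 1) *
        (((b : (Matrix (Fin n) (Fin n) ℤ)ˣ) : Matrix (Fin n) (Fin n) ℤ) - 1) +
        (((a : (Matrix (Fin n) (Fin n) ℤ)ˣ) : Matrix (Fin n) (Fin n) ℤ) - 1) +
        (((b : (Matrix (Fin n) (Fin n) ℤ)ˣ) : Matrix (Fin n) (Fin n) ℤ) - 1) := by noncomm_ring
    rw [this]
    exact add_mem (add_mem (JJ_mono (by omega) (JJ_mul ha hb)) ha) hb
  inv_mem' := by
    intro a ha
    simp only [Set.mem_ofPred_eq, Subgroup.coe_inv] at *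
    have h1 := JJ_mul (UT_inv_zero a) ha
    rw [Nat.zero_add] at h1
    have h2 := neg_mem h1
    have : (((a : (Matrix (Fin n) (Fin n) ℤ)ˣ)⁻¹ : (Matrix (Fin n) (Fin n) ℤ)ˣ) :
        Matrix (Fin n) (Fin n) ℤ) - 1 =
        -((((a : (Matrix (Fin n) (Fin n) ℤ)ˣ)⁻¹ : (Matrix (Fin n) (Fin n) ℤ)ˣ) :
        Matrix (Fin n) (Fin n) ℤ) *
        (((a : (Matrix (Fin n) (Fin n) ℤ)ˣ) : Matrix (Fin n) (Fin n) ℤ) - 1)) := by
      rw [mul_sub, Units.inv_mul, mul_one, neg_sub]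
    rw [this]
    exact h2

theorem UT_nilpotent (n : ℕ) : Group.IsNilpotent (UT n) := by
  rw [Subgroup.nilpotent_iff_finite_descending_central_series]
  refine ⟨n, UTf n, ⟨?_, ?_⟩, ?_⟩
  · rw [eq_top_iff]
    intro u _
    exact u.2.1
  · intro x k hx g
    change ((⁅x, g⁆ : UT n) : (Matrix (Fin n) (Fin n) ℤ)ˣ).val - 1 ∈ JJ n (k + 1 + 1)
    have hx' : ((x : (Matrix (Fin n) (Fin n) ℤ)ˣ) : Matrix (Fin n) (Fin n) ℤ) - 1 ∈ JJ n (k + 1) :=
      hx
    have h1 := UT_inv_zero x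
    have h2 := UT_inv_zero g
    have h3 := g.2.1
    simp only [commutatorElement_def, Subgroup.coe_mul, Subgroup.coe_inv, Units.val_mul]
    set a : (Matrix (Fin n) (Fin n) ℤ)ˣ := (x : (Matrix (Fin n) (Fin n) ℤ)ˣ)
    set b : (Matrix (Fin n) (Fin n) ℤ)ˣ := (g : (Matrix (Fin n) (Fin n) ℤ)ˣ)
    have e : a.val * b.val * (a⁻¹).val * (b⁻¹).val - 1 =
        ((a.val - 1) * (b.val - 1) - (b.val - 1) * (a.val - 1)) * ((a⁻¹).val * (b⁻¹).val) := by
      have e1 : (a.val - 1) * (b.val - 1) - (b.val - 1) * (a.val - 1) =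
          a.val * b.val - b.val * a.val := by noncomm_ring
      have e2 : b.val * a.val * ((a⁻¹).val * (b⁻¹).val) = 1 := by
        rw [mul_assoc, ← mul_assoc a.val, Units.mul_inv, one_mul, Units.mul_inv]
      rw [e1, sub_mul, e2, mul_assoc, mul_assoc]
    rw [e]
    have h4 := JJ_mul hx' h3
    have h5 := JJ_mul h3 hx'
    have h6 : (a.val - 1) * (b.val - 1) - (b.val - 1) * (a.val - 1) ∈ JJ n (k + 1 + 1) := by
      refine sub_mem h4 ?_
      rw [Nat.add_comm 1 (k + 1)] at h5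
      exact h5
    have h7 := JJ_mul h6 (JJ_mul h1 h2)
    simpa using h7
  · rw [eq_bot_iff]
    intro u hu
    have h1 : ((u : (Matrix (Fin n) (Fin n) ℤ)ˣ) : Matrix (Fin n) (Fin n) ℤ) - 1 ∈ JJ n (n + 1) :=
      hu
    have h2 := JJ_top (JJ_mono (by omega) h1)
    rw [Subgroup.mem_bot]
    apply Subtype.ext
    apply Units.ext
    simpa using sub_eq_zero.1 h2

theorem pow_sub {n k : ℕ} (hk : 1 ≤ k) {a : Matrix (Fin n) (Fin n) ℤ} (ha : a ∈ JJ n k) (m : ℕ) :
    (1 + a) ^ m - 1 - (m : ℤ) • a ∈ JJ n (k + 1) := by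
  induction m with
  | zero => simp [zero_mem]
  | succ m ih =>
    have h0 : (1 + a) ∈ JJ n 0 := add_mem JJ_one (JJ_mono (Nat.zero_le _) ha)
    have e : (1 + a) ^ (m + 1) - 1 - ((m + 1 : ℕ) : ℤ) • a =
        ((1 + a) ^ m - 1 - (m : ℤ) • a) * (1 + a) + (m : ℤ) • (a * a) := by
      rw [pow_succ]
      generalize (1 + a) ^ m = p
      push_cast
      simp only [add_smul, one_smul, mul_add, sub_mul, smul_mul_assoc, mul_one, one_mul]
      abel
    rw [e]
    refine add_mem ?_ ?_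
    · have := JJ_mul ih h0
      simpa using this
    · exact zsmul_mem (JJ_mono (by omega) (JJ_mul ha ha)) _

theorem UT_torsionFree (n : ℕ) (u : UT n) (m : ℕ) (hm : 0 < m) (h : u ^ m = 1) : u = 1 := by
  set a : Matrix (Fin n) (Fin n) ℤ := ((u : (Matrix (Fin n) (Fin n) ℤ)ˣ) : Matrix (Fin n) (Fin n) ℤ)
    - 1 with ha
  have hu : (1 + a) ^ m = 1 := by
    have h1 := congrArg (fun v : UT n => ((v : (Matrix (Fin n) (Fin n) ℤ)ˣ) :
      Matrix (Fin n) (Fin n) ℤ)) h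
    simp only [Subgroup.coe_pow, Units.val_pow_eq_pow_val, Subgroup.coe_one, Units.val_one] at h1
    rw [ha, add_sub_cancel]
    exact h1
  have hall : ∀ k : ℕ, a ∈ JJ n (k + 1) := by
    intro k
    induction k with
    | zero => exact u.2.1
    | succ k ih =>
      have h1 := pow_sub (by omega) ih m
      rw [hu, sub_self, zero_sub] at h1
      have h2 := neg_mem h1
      rw [neg_neg] at h2
      intro i j hij
      have h3 := h2 i j hij
      simp only [Matrix.smul_apply, smul_eq_mul, mul_eq_zero] at h3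
      rcases h3 with h3 | h3
      · omega
      · exact h3
  have h0 := JJ_top (JJ_mono (by omega) (hall n))
  apply Subtype.ext
  apply Units.ext
  simpa using sub_eq_zero.1 h0

/-- Detection by unitriangular groups. -/
def DetUT (G : Type*) [Group G] : Prop :=
  ∀ g : G, g ≠ 1 → ∃ (n : ℕ) (f : G →* UT n), f g ≠ 1

theorem DetUT.res {G : Type*} [Group G] (h : DetUT G) (g : G) (hg : g ≠ 1) :
    ∃ (N : Type) (_ : Group N) (f : G →* N), Function.Surjective f ∧ Group.IsNilpotent N ∧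
      (∀ x : N, ∀ n : ℕ, 0 < n → x ^ n = 1 → x = 1) ∧ f g ≠ 1 := by
  obtain ⟨n, f, hf⟩ := h g hg
  have := UT_nilpotent n
  refine ⟨f.range, inferInstance, f.rangeRestrict, f.rangeRestrict_surjective, inferInstance,
    ?_, ?_⟩
  · intro x m hm hx
    apply Subtype.ext
    apply UT_torsionFree n _ m hm
    rw [← Subgroup.coe_pow, hx]; rfl
  · intro h0
    apply hf
    have := congrArg Subtype.val h0
    simpa using this

theorem DetUT.of_hom {G H : Type*} [Group G] [Group H] (hH : DetUT H) (g : G) (f : G →* H)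
    (hf : f g ≠ 1) : ∃ (n : ℕ) (f : G →* UT n), f g ≠ 1 := by
  obtain ⟨n, f', hf'⟩ := hH _ hf
  exact ⟨n, f'.comp f, hf'⟩

/-- The elementary unipotent `1 + e A` for `A * A = 0`. -/
def elemUnit {n : ℕ} (A : Matrix (Fin n) (Fin n) ℤ) (hA : A ∈ JJ n 1) (hA2 : A * A = 0) :
    Multiplicative ℤ →* UT n where
  toFun e := ⟨⟨1 + e.toAdd • A, 1 - e.toAdd • A, by
      simp only [mul_sub, add_mul, smul_mul_assoc, mul_smul_comm, hA2, smul_zero, one_mul, mul_one]
      abel_nf, by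
      simp only [mul_add, sub_mul, smul_mul_assoc, mul_smul_comm, hA2, smul_zero, one_mul, mul_one]
      abel_nf⟩, by
      constructor
      · simpa using zsmul_mem hA e.toAdd
      · have := neg_mem (zsmul_mem hA e.toAdd)
        simpa using this⟩
  map_one' := by
    apply Subtype.ext; apply Units.ext; simp
  map_mul' e f := by
    apply Subtype.ext; apply Units.ext
    simp only [Subgroup.coe_mul, Units.val_mul, toAdd_mul]
    simp only [add_mul, mul_add, smul_mul_assoc, mul_smul_comm, hA2, smul_zero, add_smul, one_mul,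
      mul_one]
    abel_nf

@[simp] theorem elemUnit_val {n : ℕ} (A : Matrix (Fin n) (Fin n) ℤ) (hA : A ∈ JJ n 1)
    (hA2 : A * A = 0) (e : Multiplicative ℤ) :
    ((elemUnit A hA hA2 e : (Matrix (Fin n) (Fin n) ℤ)ˣ) : Matrix (Fin n) (Fin n) ℤ) =
      1 + e.toAdd • A := rfl

end Pool.Agent.W_MP_f5b23d_al
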